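import Pool.Agent.R462.PL.Local

set_option autoImplicit false

open Filter Topology Real

namespace Pool.Agent.R462.PL

/-- A periodic function has a maximum, where the second derivative is nonpositive. -/
theorem exists_max {W W1 W2 : ℝ → ℝ} {T : ℝ} (hT : 0 < T) (hper : Function.Periodic W T)
    (h1 : ∀ t, HasDerivAt W (W1 t) t) (h2 : ∀ t, HasDerivAt W1 (W2 t) t) :
    ∃ m, (∀ t, W t ≤ W m) ∧ W1 m = 0 ∧ W2 m ≤ 0 := by
  have hcont : Continuous W := continuous_iff_continuousAt.mpr fun t => (h1 t).continuousAt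
  obtain ⟨m, hm, hmax⟩ := isCompact_Icc.exists_isMaxOn (s := Set.Icc (0 : ℝ) T)
    (Set.nonempty_Icc.mpr hT.le) hcont.continuousOn
  have hall : ∀ t, W t ≤ W m := by
    intro t
    obtain ⟨s, hs, hst⟩ := hper.exists_mem_Ico₀ hT t
    rw [hst]
    exact hmax ⟨hs.1, hs.2.le⟩
  have hloc : IsLocalMax W m := Filter.Eventually.of_forall hall
  have hd : W1 m = 0 := by
    have := hloc.deriv_eq_zero
    rw [(h1 m).deriv] at this
    exact this
  refine ⟨m, hall, hd, ?_⟩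
  by_contra hcon
  push Not at hcon
  have hderiv : deriv W = W1 := funext fun t => (h1 t).deriv
  have hmin : IsLocalMin W m := by
    apply isLocalMin_of_deriv_deriv_pos
    · rw [hderiv, (h2 m).deriv]; exact hcon
    · rw [hderiv]; exact hd
    · exact (h1 m).continuousAt
  have hconst : W =ᶠ[𝓝 m] fun _ => W m := by
    filter_upwards [hmin, hloc] with t a b
    exact le_antisymm b a
  have hW1 : W1 =ᶠ[𝓝 m] fun _ => 0 := by
    filter_upwards [hconst.eventuallyEq_nhds] with t ht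
    have := ht.deriv_eq
    rw [(h1 t).deriv] at this
    simpa using this
  have := hW1.deriv_eq
  rw [(h2 m).deriv] at this
  simp at this
  linarith

section ode

variable {H h : ℕ → ℝ → ℝ}
  (dH : ∀ i t, HasDerivAt (H i) (H (i + 1) t) t)
  (dh : ∀ i t, HasDerivAt (h i) (h (i + 1) t) t)
include dH dh

/-- The differential equation at the point `0`. -/
theorem ode_zero (h0 : 0 < h 0 0) (hD : 0 < bb H 0 0) (hinv : LocInv H h) :
    108 * bb h 0 0 * h 0 0 * h 1 0 * bb H 0 0 ^ 3 + 99 * bb h 0 0 * h 0 0 ^ 2 * bb H 0 0 ^ 2 * bb H 1 0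
      - 63 * bb h 1 0 * h 0 0 ^ 2 * bb H 0 0 ^ 3 - 135 * h 1 0 ^ 3 * bb H 0 0 ^ 3
      + 162 * h 0 0 * h 1 0 * h 2 0 * bb H 0 0 ^ 3
      - 135 * h 0 0 * h 1 0 ^ 2 * bb H 0 0 ^ 2 * bb H 1 0
      - 105 * h 0 0 ^ 2 * h 1 0 * bb H 0 0 * bb H 1 0 ^ 2
      + 45 * h 0 0 ^ 2 * h 1 0 * bb H 0 0 ^ 2 * bb H 2 0
      + 81 * h 0 0 ^ 2 * h 2 0 * bb H 0 0 ^ 2 * bb H 1 0
      - 27 * h 0 0 ^ 2 * h 3 0 * bb H 0 0 ^ 3 - 65 * h 0 0 ^ 3 * bb H 1 0 ^ 3
      + 60 * h 0 0 ^ 3 * bb H 0 0 * bb H 1 0 * bb H 2 0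
      - 9 * h 0 0 ^ 3 * bb H 0 0 ^ 2 * bb H 3 0 = 0 := by
  have key := relation dH dh h0 hD hinv
  obtain ⟨z1, z2, z3, z4, z5, z6⟩ := at_zero (H := H) (h := h)
  rw [(hasDerivAt_F4_zero dH dh h0.ne' hD.ne').deriv] at key
  simp only [F2, F3, F4, AA, X1, z1, z2, z4, z5, z6, Real.sin_zero, Real.cos_zero] at key
  have a := h0.ne'
  have b := hD.ne'
  field_simp at key
  linear_combination key

end ode

/-- The boundary point, with outer normal `(cos θ, sin θ)`, of the convex body with support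
function `u`. -/
noncomputable def pt (u : ℝ → ℝ) (θ : ℝ) : ℝ × ℝ :=
  (u θ * cos θ - deriv u θ * sin θ, u θ * sin θ + deriv u θ * cos θ)

/-- The unit tangent vector at this point. -/
noncomputable def tangent (θ : ℝ) : ℝ × ℝ := (-sin θ, cos θ)

/-- The leaves are the curves with the support functions `H + r h`, `0 ≤ r`. For every point `p`
of the leaf `r = 0` the involution of the tangent line at `p` is projective: if a leaf close to
`γ` meets the tangent line near `p` in the points at the distances `x` and `y` from `p`, on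
different sides of `p`, then `1 / x - 1 / y` does not depend on the leaf. -/
def ProjectiveInvolutions (H h : ℝ → ℝ) : Prop :=
  ∀ θ₀ : ℝ, ∃ c ε : ℝ, 0 < ε ∧ ∀ r x y θ₁ θ₂ : ℝ, 0 < r → r < ε → 0 < x → x < ε → 0 < y → y < ε →
    |θ₁ - θ₀| < ε → |θ₂ - θ₀| < ε →
    pt (fun θ => H θ + r * h θ) θ₁ = pt H θ₀ + x • tangent θ₀ →
    pt (fun θ => H θ + r * h θ) θ₂ = pt H θ₀ - y • tangent θ₀ → 1 / x - 1 / y = c

/-- The sequence of the derivatives, shifted. -/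
noncomputable def jt (u : ℝ → ℝ) (θ₀ : ℝ) (i : ℕ) (t : ℝ) : ℝ := iteratedDeriv i u (θ₀ + t)

theorem hasDerivAt_jt {u : ℝ → ℝ} (hu : ContDiff ℝ (⊤ : ℕ∞) u) (θ₀ : ℝ) (i : ℕ) (t : ℝ) :
    HasDerivAt (jt u θ₀ i) (jt u θ₀ (i + 1) t) t := by
  have h1 : HasDerivAt (iteratedDeriv i u) (iteratedDeriv (i + 1) u (θ₀ + t)) (θ₀ + t) := by
    rw [iteratedDeriv_succ]
    exact ((hu.differentiable_iteratedDeriv i (by exact_mod_cast ENat.natCast_lt_top i))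
      (θ₀ + t)).hasDerivAt
  exact h1.comp_const_add θ₀ t

theorem pt_eq {u : ℝ → ℝ} (θ₀ t : ℝ) :
    pt u (θ₀ + t) = ((u (θ₀ + t) * cos t - deriv u (θ₀ + t) * sin t) * cos θ₀
        - (u (θ₀ + t) * sin t + deriv u (θ₀ + t) * cos t) * sin θ₀,
      (u (θ₀ + t) * cos t - deriv u (θ₀ + t) * sin t) * sin θ₀
        + (u (θ₀ + t) * sin t + deriv u (θ₀ + t) * cos t) * cos θ₀) := by
  unfold pt
  rw [Real.cos_add, Real.sin_add]
  ext
  · simp only
    ring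
  · simp only
    ring

theorem locInv {H h : ℝ → ℝ} (hH : ContDiff ℝ (⊤ : ℕ∞) H) (hh : ContDiff ℝ (⊤ : ℕ∞) h)
    (inv : ProjectiveInvolutions H h) (θ₀ : ℝ) : LocInv (jt H θ₀) (jt h θ₀) := by
  obtain ⟨c, ε, hε, hc⟩ := inv θ₀
  refine ⟨c, ε, hε, fun r x y t₁ t₂ hr hr' hx hx' hy hy' ht₁ ht₂ e1 e2 e3 e4 => ?_⟩
  have hd : ∀ θ, deriv (fun θ => H θ + r * h θ) θ = deriv H θ + r * deriv h θ := by
    intro θ
    have a := (hH.differentiable (by simp) θ).hasDerivAt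
    have b := (hh.differentiable (by simp) θ).hasDerivAt
    exact (a.fun_add (b.const_mul r)).deriv
  have j0 : ∀ (u : ℝ → ℝ) (t : ℝ), jt u θ₀ 0 t = u (θ₀ + t) := fun u t => by simp [jt]
  have j1 : ∀ (u : ℝ → ℝ) (t : ℝ), jt u θ₀ 1 t = deriv u (θ₀ + t) := fun u t => by simp [jt]
  simp only [MM, NN, j0, j1, add_zero] at e1 e2 e3 e4
  refine hc r x y (θ₀ + t₁) (θ₀ + t₂) hr hr' hx hx' hy hy' (by simpa using ht₁)
    (by simpa using ht₂) ?_ ?_
  · rw [pt_eq, hd]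
    unfold pt tangent
    ext
    · simp only [Prod.fst_add, Prod.smul_fst, smul_eq_mul]
      linear_combination cos θ₀ * e1 - sin θ₀ * e2
    · simp only [Prod.snd_add, Prod.smul_snd, smul_eq_mul]
      linear_combination sin θ₀ * e1 + cos θ₀ * e2
  · rw [pt_eq, hd]
    unfold pt tangent
    ext
    · simp only [Prod.fst_sub, Prod.smul_fst, smul_eq_mul]
      linear_combination cos θ₀ * e3 - sin θ₀ * e4
    · simp only [Prod.snd_sub, Prod.smul_snd, smul_eq_mul]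
      linear_combination sin θ₀ * e3 + cos θ₀ * e4

/-- The differential equation. -/
theorem ode {H h : ℝ → ℝ} (hH : ContDiff ℝ (⊤ : ℕ∞) H) (hh : ContDiff ℝ (⊤ : ℕ∞) h)
    (curv : ∀ θ, 0 < H θ + deriv (deriv H) θ) (hpos : ∀ θ, 0 < h θ)
    (inv : ProjectiveInvolutions H h) (θ : ℝ) :
    108 * bb (jt h 0) 0 θ * jt h 0 0 θ * jt h 0 1 θ * bb (jt H 0) 0 θ ^ 3
      + 99 * bb (jt h 0) 0 θ * jt h 0 0 θ ^ 2 * bb (jt H 0) 0 θ ^ 2 * bb (jt H 0) 1 θ
      - 63 * bb (jt h 0) 1 θ * jt h 0 0 θ ^ 2 * bb (jt H 0) 0 θ ^ 3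
      - 135 * jt h 0 1 θ ^ 3 * bb (jt H 0) 0 θ ^ 3
      + 162 * jt h 0 0 θ * jt h 0 1 θ * jt h 0 2 θ * bb (jt H 0) 0 θ ^ 3
      - 135 * jt h 0 0 θ * jt h 0 1 θ ^ 2 * bb (jt H 0) 0 θ ^ 2 * bb (jt H 0) 1 θ
      - 105 * jt h 0 0 θ ^ 2 * jt h 0 1 θ * bb (jt H 0) 0 θ * bb (jt H 0) 1 θ ^ 2
      + 45 * jt h 0 0 θ ^ 2 * jt h 0 1 θ * bb (jt H 0) 0 θ ^ 2 * bb (jt H 0) 2 θ
      + 81 * jt h 0 0 θ ^ 2 * jt h 0 2 θ * bb (jt H 0) 0 θ ^ 2 * bb (jt H 0) 1 θ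
      - 27 * jt h 0 0 θ ^ 2 * jt h 0 3 θ * bb (jt H 0) 0 θ ^ 3
      - 65 * jt h 0 0 θ ^ 3 * bb (jt H 0) 1 θ ^ 3
      + 60 * jt h 0 0 θ ^ 3 * bb (jt H 0) 0 θ * bb (jt H 0) 1 θ * bb (jt H 0) 2 θ
      - 9 * jt h 0 0 θ ^ 3 * bb (jt H 0) 0 θ ^ 2 * bb (jt H 0) 3 θ = 0 := by
  have e : ∀ (u : ℝ → ℝ) (i : ℕ), jt u θ i 0 = jt u 0 i θ := fun u i => by simp [jt]
  have eb : ∀ (u : ℝ → ℝ) (i : ℕ), bb (jt u θ) i 0 = bb (jt u 0) i θ := fun u i => by
    simp [bb, e]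
  have key := ode_zero (hasDerivAt_jt hH θ) (hasDerivAt_jt hh θ) (by simpa [jt] using hpos θ)
    (by
      have := curv θ
      simp only [bb, jt, add_zero, zero_add, iteratedDeriv_zero]
      rwa [iteratedDeriv_succ, iteratedDeriv_one])
    (locInv hH hh inv θ)
  simp only [e, eb] at key
  exact key

/-- Support functions with constant radius of curvature. -/
theorem circle {H : ℝ → ℝ} (hH : ContDiff ℝ (⊤ : ℕ∞) H) {R : ℝ}
    (hR : ∀ θ, bb (jt H 0) 0 θ = R) : ∃ a b, ∀ θ, H θ = a * cos θ + b * sin θ + R := by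
  have dH := hasDerivAt_jt hH 0
  have c1 : ∀ θ, HasDerivAt (fun θ => MM (jt H 0) θ - R * cos θ) 0 θ := by
    intro θ
    refine HasDerivAt.congr_deriv ((hasDerivAt_MM dH θ).sub ((Real.hasDerivAt_cos θ).const_mul R)) ?_
    rw [hR]
    ring
  have c2 : ∀ θ, HasDerivAt (fun θ => NN (jt H 0) θ - R * sin θ) 0 θ := by
    intro θ
    refine HasDerivAt.congr_deriv ((hasDerivAt_NN dH θ).sub ((Real.hasDerivAt_sin θ).const_mul R)) ?_
    rw [hR]
    ring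
  have k1 : ∀ θ, MM (jt H 0) θ - R * cos θ = MM (jt H 0) 0 - R * cos 0 := fun θ =>
    is_const_of_deriv_eq_zero (fun θ => (c1 θ).differentiableAt) (fun θ => (c1 θ).deriv) θ 0
  have k2 : ∀ θ, NN (jt H 0) θ - R * sin θ = NN (jt H 0) 0 - R * sin 0 := fun θ =>
    is_const_of_deriv_eq_zero (fun θ => (c2 θ).differentiableAt) (fun θ => (c2 θ).deriv) θ 0
  refine ⟨MM (jt H 0) 0 - R * cos 0, NN (jt H 0) 0 - R * sin 0, fun θ => ?_⟩
  rw [← k1 θ, ← k2 θ]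
  have e : H θ = jt H 0 0 θ := by simp [jt]
  rw [e]
  simp only [MM, NN]
  linear_combination (R - jt H 0 0 θ) * Real.sin_sq_add_cos_sq θ

end Pool.Agent.R462.PL
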