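import Pool.Agent.R462.PL.Gauge

set_option autoImplicit false

open Filter Topology Real

namespace Pool.Agent.R462.PL

/-- The logarithmic derivative of the gauge relative to the ellipse. -/
noncomputable def WN (G0 G1 h0 h1 : ℝ) : ℝ := G0 ^ 2 * (h1 / h0) - G0 * G1

noncomputable def WN' (G0 G1 G2 h0 h1 h2 : ℝ) : ℝ :=
  2 * G0 * G1 * (h1 / h0) + G0 ^ 2 * (h2 / h0 - h1 ^ 2 / h0 ^ 2) - G1 ^ 2 - G0 * G2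

noncomputable def WN'' (G0 G1 G2 G3 h0 h1 h2 h3 : ℝ) : ℝ :=
  2 * G1 ^ 2 * (h1 / h0) + 2 * G0 * G2 * (h1 / h0) + 4 * G0 * G1 * (h2 / h0 - h1 ^ 2 / h0 ^ 2)
    + G0 ^ 2 * (h3 / h0 - 3 * h1 * h2 / h0 ^ 2 + 2 * h1 ^ 3 / h0 ^ 3)
    - 3 * G1 * G2 - G0 * G3

theorem alg_body {G0 G1 G2 G3 p0 p1 p2 p3 h0 h1 h2 h3 : ℝ} (hp : p0 ≠ 0) (hh : h0 ≠ 0)
    (hG : G0 ≠ 0)
    (e5 : E5 p0 p1 p2 p3 h0 h1 h2 h3 = 0) (g2 : p0 = G0 + G2) (g3 : p1 = G1 + G3)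
    (k1 : G0 * p1 + 3 * G1 * p0 = 0) (k2 : G0 * p2 + 4 * G1 * p1 + 3 * G2 * p0 = 0)
    (k3 : G0 * p3 + 5 * G1 * p2 + 7 * G2 * p1 + 3 * G3 * p0 = 0) :
    2 * (G0 ^ 4 * WN'' G0 G1 G2 G3 h0 h1 h2 h3 + 2 * G0 ^ 3 * G1 * WN' G0 G1 G2 h0 h1 h2)
      = WN G0 G1 h0 h1 ^ 3 + G0 ^ 3 * p0 * WN G0 G1 h0 h1 := by
  obtain rfl : G2 = p0 - G0 := by linarith
  obtain rfl : G3 = p1 - G1 := by linarith
  obtain rfl : p1 = -(3 * G1 * p0) / G0 := by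
    field_simp
    linarith
  obtain rfl : p2 = -(4 * G1 * (-(3 * G1 * p0) / G0) + 3 * (p0 - G0) * p0) / G0 := by
    rw [eq_div_iff hG]
    linarith
  obtain rfl : p3 = -(5 * G1 * (-(4 * G1 * (-(3 * G1 * p0) / G0) + 3 * (p0 - G0) * p0) / G0)
      + 7 * (p0 - G0) * (-(3 * G1 * p0) / G0) + 3 * (-(3 * G1 * p0) / G0 - G1) * p0) / G0 := by
    rw [eq_div_iff hG]
    linarith
  have key : 2 * (G0 ^ 4 * WN'' G0 G1 (p0 - G0) (-(3 * G1 * p0) / G0 - G1) h0 h1 h2 h3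
        + 2 * G0 ^ 3 * G1 * WN' G0 G1 (p0 - G0) h0 h1 h2)
      - (WN G0 G1 h0 h1 ^ 3 + G0 ^ 3 * p0 * WN G0 G1 h0 h1)
      = -(G0 ^ 6 / (45 * h0 ^ 3 * p0 ^ 3)) * E5 p0 (-(3 * G1 * p0) / G0)
        (-(4 * G1 * (-(3 * G1 * p0) / G0) + 3 * (p0 - G0) * p0) / G0)
        (-(5 * G1 * (-(4 * G1 * (-(3 * G1 * p0) / G0) + 3 * (p0 - G0) * p0) / G0)
      + 7 * (p0 - G0) * (-(3 * G1 * p0) / G0) + 3 * (-(3 * G1 * p0) / G0 - G1) * p0) / G0)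
        h0 h1 h2 h3 := by
    unfold WN'' WN' WN E5
    field_simp
    ring
  rw [e5] at key
  linear_combination key

end Pool.Agent.R462.PL
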