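import Pool.Agent.R462.PL.Parity

set_option autoImplicit false

open Filter Topology Real

namespace Pool.Agent.R462.PL

variable (H h : ℕ → ℝ → ℝ)

/-- The component along the initial normal of the point with support function `h`. -/
noncomputable def MM (t : ℝ) : ℝ := h 0 t * cos t - h 1 t * sin t

/-- The component along the initial tangent. -/
noncomputable def NN (t : ℝ) : ℝ := h 0 t * sin t + h 1 t * cos t

/-- Derivatives of the radius of curvature. -/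
noncomputable def bb (i : ℕ) (t : ℝ) : ℝ := h i t + h (i + 2) t

/-- The index of the leaf through the point of the tangent line where the leaf has normal angle
`t`. -/
noncomputable def rr (t : ℝ) : ℝ := (H 0 0 - MM H t) / MM h t

/-- The position of this point on the tangent line. -/
noncomputable def XX (t : ℝ) : ℝ := NN H t - H 1 0 + rr H h t * NN h t

noncomputable def DD (t : ℝ) : ℝ := bb H 0 t + rr H h t * bb h 0 t

noncomputable def QQ (t : ℝ) : ℝ := bb H 1 t + rr H h t * bb h 1 t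

noncomputable def PP (t : ℝ) : ℝ := bb H 2 t + rr H h t * bb h 2 t

/-- The derivative of `XX`. -/
noncomputable def X1 (t : ℝ) : ℝ := DD H h t * h 0 t / MM h t

noncomputable def F1 (t : ℝ) : ℝ := sin t / h 0 t

noncomputable def F2 (t : ℝ) : ℝ := MM h t ^ 2 / (h 0 t ^ 3 * DD H h t)

noncomputable def F3 (t : ℝ) : ℝ :=
  -(MM h t ^ 2 * (MM h t * h 0 t * QQ H h t + 3 * DD H h t * bb h 0 t * h 0 t * sin t
    + 3 * MM h t * DD H h t * h 1 t)) / (DD H h t ^ 3 * h 0 t ^ 5)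

noncomputable def AA (t : ℝ) : ℝ :=
  3 * MM h t ^ 2 * h 0 t ^ 2 * QQ H h t ^ 2
  + 12 * MM h t * DD H h t * h 0 t ^ 2 * bb h 0 t * sin t * QQ H h t
  + 10 * MM h t ^ 2 * DD H h t * h 0 t * h 1 t * QQ H h t
  - MM h t ^ 2 * DD H h t * h 0 t ^ 2 * PP H h t
  + 12 * DD H h t ^ 2 * h 0 t ^ 2 * bb h 0 t ^ 2 * sin t ^ 2
  - 3 * MM h t * DD H h t ^ 2 * h 0 t ^ 2 * bb h 0 t * cos t
  + 27 * MM h t * DD H h t ^ 2 * h 0 t * bb h 0 t * h 1 t * sin t
  - 4 * MM h t * DD H h t ^ 2 * h 0 t ^ 2 * bb h 1 t * sin t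
  + 15 * MM h t ^ 2 * DD H h t ^ 2 * h 1 t ^ 2
  - 3 * MM h t ^ 2 * DD H h t ^ 2 * h 0 t * h 2 t

noncomputable def F4 (t : ℝ) : ℝ := MM h t ^ 2 * AA H h t / (DD H h t ^ 5 * h 0 t ^ 7)

variable {H h}

section

variable (dh : ∀ i t, HasDerivAt (h i) (h (i + 1) t) t)
include dh

theorem hasDerivAt_MM (t : ℝ) : HasDerivAt (MM h) (-(bb h 0 t * sin t)) t := by
  refine HasDerivAt.congr_deriv
    (((dh 0 t).mul (Real.hasDerivAt_cos t)).sub ((dh 1 t).mul (Real.hasDerivAt_sin t))) ?_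
  simp only [bb, zero_add]
  ring

theorem hasDerivAt_NN (t : ℝ) : HasDerivAt (NN h) (bb h 0 t * cos t) t := by
  refine HasDerivAt.congr_deriv
    (((dh 0 t).mul (Real.hasDerivAt_sin t)).add ((dh 1 t).mul (Real.hasDerivAt_cos t))) ?_
  simp only [bb, zero_add]
  ring

theorem hasDerivAt_bb (i : ℕ) (t : ℝ) : HasDerivAt (bb h i) (bb h (i + 1) t) t :=
  (dh i t).add (dh (i + 2) t)

end

variable (dH : ∀ i t, HasDerivAt (H i) (H (i + 1) t) t)
  (dh : ∀ i t, HasDerivAt (h i) (h (i + 1) t) t)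
include dH dh

theorem hasDerivAt_rr {t : ℝ} (hM : MM h t ≠ 0) :
    HasDerivAt (rr H h) (sin t * DD H h t / MM h t) t := by
  refine HasDerivAt.congr_deriv
    (((hasDerivAt_MM dH t).const_sub (H 0 0)).div (hasDerivAt_MM dh t) hM) ?_
  simp only [DD, rr]
  field_simp
  ring

theorem hasDerivAt_XX {t : ℝ} (hM : MM h t ≠ 0) : HasDerivAt (XX H h) (X1 H h t) t := by
  refine HasDerivAt.congr_deriv
    (((hasDerivAt_NN dH t).sub_const (H 1 0)).add
      ((hasDerivAt_rr dH dh hM).mul (hasDerivAt_NN dh t))) ?_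
  simp only [X1]
  have h1 : MM h t * cos t + NN h t * sin t = h 0 t := by
    simp only [MM, NN]
    linear_combination (h 0 t) * Real.sin_sq_add_cos_sq t
  have h2 : bb H 0 t = DD H h t - rr H h t * bb h 0 t := by simp only [DD]; ring
  rw [h2]
  field_simp
  linear_combination (DD H h t) * h1

theorem hasDerivAt_DD {t : ℝ} (hM : MM h t ≠ 0) :
    HasDerivAt (DD H h) (QQ H h t + sin t * DD H h t / MM h t * bb h 0 t) t := by
  refine HasDerivAt.congr_deriv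
    ((hasDerivAt_bb dH 0 t).add ((hasDerivAt_rr dH dh hM).mul (hasDerivAt_bb dh 0 t))) ?_
  simp only [QQ, zero_add]
  ring

theorem hasDerivAt_QQ {t : ℝ} (hM : MM h t ≠ 0) :
    HasDerivAt (QQ H h) (PP H h t + sin t * DD H h t / MM h t * bb h 1 t) t := by
  refine HasDerivAt.congr_deriv
    ((hasDerivAt_bb dH 1 t).add ((hasDerivAt_rr dH dh hM).mul (hasDerivAt_bb dh 1 t))) ?_
  simp only [PP, Nat.reduceAdd]
  ring

theorem hasDerivAt_PP {t : ℝ} (hM : MM h t ≠ 0) :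
    HasDerivAt (PP H h) (bb H 3 t + rr H h t * bb h 3 t + sin t * DD H h t / MM h t * bb h 2 t)
      t := by
  refine HasDerivAt.congr_deriv
    ((hasDerivAt_bb dH 2 t).add ((hasDerivAt_rr dH dh hM).mul (hasDerivAt_bb dh 2 t))) ?_
  simp only [Nat.reduceAdd]
  ring

theorem d0 {t : ℝ} (hM : MM h t ≠ 0) (h0 : h 0 t ≠ 0) :
    HasDerivAt (rr H h) (F1 h t * X1 H h t) t := by
  refine HasDerivAt.congr_deriv (hasDerivAt_rr dH dh hM) ?_
  simp only [F1, X1]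
  field_simp

omit dH in
theorem d1 {t : ℝ} (_hM : MM h t ≠ 0) (h0 : h 0 t ≠ 0) (hD : DD H h t ≠ 0) :
    HasDerivAt (F1 h) (F2 H h t * X1 H h t) t := by
  refine HasDerivAt.congr_deriv ((Real.hasDerivAt_sin t).div (dh 0 t) h0) ?_
  simp only [F2, X1, zero_add]
  field_simp
  simp only [MM]
  ring

theorem d2 {t : ℝ} (hM : MM h t ≠ 0) (h0 : h 0 t ≠ 0) (hD : DD H h t ≠ 0) :
    HasDerivAt (F2 H h) (F3 H h t * X1 H h t) t := by
  refine HasDerivAt.congr_deriv (((hasDerivAt_MM dh t).fun_pow 2).div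
    (((dh 0 t).fun_pow 3).mul (hasDerivAt_DD dH dh hM))
    (mul_ne_zero (pow_ne_zero 3 h0) hD)) ?_
  simp only [F3, X1, zero_add]
  push_cast
  field_simp
  ring

theorem d3 {t : ℝ} (hM : MM h t ≠ 0) (h0 : h 0 t ≠ 0) (hD : DD H h t ≠ 0) :
    HasDerivAt (F3 H h) (F4 H h t * X1 H h t) t := by
  have m := hasDerivAt_MM dh t
  have q := hasDerivAt_QQ dH dh hM
  have d := hasDerivAt_DD dH dh hM
  have b := hasDerivAt_bb dh 0 t
  have s := Real.hasDerivAt_sin t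
  refine HasDerivAt.congr_deriv (((m.fun_pow 2).mul
    ((((m.mul (dh 0 t)).mul q).add ((((d.const_mul 3).mul b).mul (dh 0 t)).mul s)).add
      (((m.const_mul 3).mul d).mul (dh 1 t)))).neg.div
    ((d.fun_pow 3).mul ((dh 0 t).fun_pow 5))
    (mul_ne_zero (pow_ne_zero 3 hD) (pow_ne_zero 5 h0))) ?_
  simp only [F4, AA, X1, zero_add, Pi.mul_apply, Pi.add_apply, Pi.neg_apply]
  push_cast
  field_simp
  ring

omit dH dh in
theorem at_zero : MM h 0 = h 0 0 ∧ rr H h 0 = 0 ∧ XX H h 0 = 0 ∧ DD H h 0 = bb H 0 0 ∧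
    QQ H h 0 = bb H 1 0 ∧ PP H h 0 = bb H 2 0 := by
  have h1 : ∀ u : ℕ → ℝ → ℝ, MM u 0 = u 0 0 := fun u => by simp [MM]
  have h2 : rr H h 0 = 0 := by simp [rr, h1]
  refine ⟨h1 h, h2, ?_, ?_, ?_, ?_⟩
  · simp [XX, h2, NN]
  · simp [DD, h2]
  · simp [QQ, h2]
  · simp [PP, h2]

theorem differentiableAt_F4 {t : ℝ} (hM : MM h t ≠ 0) (h0 : h 0 t ≠ 0) (hD : DD H h t ≠ 0) :
    DifferentiableAt ℝ (F4 H h) t := by
  have m := (hasDerivAt_MM dh t).differentiableAt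
  have q := (hasDerivAt_QQ dH dh hM).differentiableAt
  have d := (hasDerivAt_DD dH dh hM).differentiableAt
  have p := (hasDerivAt_PP dH dh hM).differentiableAt
  have b := (hasDerivAt_bb dh 0 t).differentiableAt
  have b1 := (hasDerivAt_bb dh 1 t).differentiableAt
  have s := (Real.hasDerivAt_sin t).differentiableAt
  have c := (Real.hasDerivAt_cos t).differentiableAt
  have u0 := (dh 0 t).differentiableAt
  have u1 := (dh 1 t).differentiableAt
  have u2 := (dh 2 t).differentiableAt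
  have hA : DifferentiableAt ℝ (AA H h) t := by
    unfold AA
    fun_prop
  unfold F4
  refine DifferentiableAt.fun_div (by fun_prop) (by fun_prop) ?_
  exact mul_ne_zero (pow_ne_zero 5 hD) (pow_ne_zero 7 h0)

theorem hasDerivAt_F4_zero (h0 : h 0 0 ≠ 0) (hD : bb H 0 0 ≠ 0) :
    HasDerivAt (F4 H h)
      ((42 * bb h 0 0 * h 0 0 * h 1 0 * bb H 0 0 ^ 3 + 21 * bb h 0 0 * h 0 0 ^ 2 * bb H 0 0 ^ 2 * bb H 1 0
        - 7 * bb h 1 0 * h 0 0 ^ 2 * bb H 0 0 ^ 3 - 105 * h 1 0 ^ 3 * bb H 0 0 ^ 3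
        + 48 * h 0 0 * h 1 0 * h 2 0 * bb H 0 0 ^ 3
        - 105 * h 0 0 * h 1 0 ^ 2 * bb H 0 0 ^ 2 * bb H 1 0
        - 55 * h 0 0 ^ 2 * h 1 0 * bb H 0 0 * bb H 1 0 ^ 2
        + 15 * h 0 0 ^ 2 * h 1 0 * bb H 0 0 ^ 2 * bb H 2 0
        + 19 * h 0 0 ^ 2 * h 2 0 * bb H 0 0 ^ 2 * bb H 1 0
        - 3 * h 0 0 ^ 2 * h 3 0 * bb H 0 0 ^ 3 - 15 * h 0 0 ^ 3 * bb H 1 0 ^ 3
        + 10 * h 0 0 ^ 3 * bb H 0 0 * bb H 1 0 * bb H 2 0
        - h 0 0 ^ 3 * bb H 0 0 ^ 2 * bb H 3 0) / (h 0 0 ^ 4 * bb H 0 0 ^ 7) * bb H 0 0) 0 := by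
  obtain ⟨z1, z2, -, z4, z5, z6⟩ := at_zero (H := H) (h := h)
  have hM : MM h 0 ≠ 0 := by rw [z1]; exact h0
  have m := hasDerivAt_MM dh 0
  have q := hasDerivAt_QQ dH dh hM
  have d := hasDerivAt_DD dH dh hM
  have p := hasDerivAt_PP dH dh hM
  have b := hasDerivAt_bb dh 0 0
  have b1 := hasDerivAt_bb dh 1 0
  have s := Real.hasDerivAt_sin 0
  have c := Real.hasDerivAt_cos 0
  have u0 := dh 0 0
  have u1 := dh 1 0
  have u2 := dh 2 0
  have a1 := ((m.fun_pow 2).const_mul 3).fun_mul (u0.fun_pow 2) |>.fun_mul (q.fun_pow 2)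
  have a2 := ((((m.const_mul 12).fun_mul d).fun_mul (u0.fun_pow 2)).fun_mul b).fun_mul s |>.fun_mul q
  have a3 := (((((m.fun_pow 2).const_mul 10).fun_mul d).fun_mul u0).fun_mul u1).fun_mul q
  have a4 := (((m.fun_pow 2).fun_mul d).fun_mul (u0.fun_pow 2)).fun_mul p
  have a5 := ((((d.fun_pow 2).const_mul 12).fun_mul (u0.fun_pow 2)).fun_mul (b.fun_pow 2)).fun_mul
    (s.fun_pow 2)
  have a6 := ((((m.const_mul 3).fun_mul (d.fun_pow 2)).fun_mul (u0.fun_pow 2)).fun_mul b).fun_mul c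
  have a7 := (((((m.const_mul 27).fun_mul (d.fun_pow 2)).fun_mul u0).fun_mul b).fun_mul u1).fun_mul s
  have a8 := ((((m.const_mul 4).fun_mul (d.fun_pow 2)).fun_mul (u0.fun_pow 2)).fun_mul b1).fun_mul s
  have a9 := (((m.fun_pow 2).const_mul 15).fun_mul (d.fun_pow 2)).fun_mul (u1.fun_pow 2)
  have a10 := ((((m.fun_pow 2).const_mul 3).fun_mul (d.fun_pow 2)).fun_mul u0).fun_mul u2
  have hA := ((((((((a1.fun_add a2).fun_add a3).fun_sub a4).fun_add a5).fun_sub a6).fun_add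
    a7).fun_sub a8).fun_add a9).fun_sub a10
  have hne : DD H h 0 ^ 5 * h 0 0 ^ 7 ≠ 0 := by
    rw [z4]
    exact mul_ne_zero (pow_ne_zero 5 hD) (pow_ne_zero 7 h0)
  refine HasDerivAt.congr_deriv (((m.fun_pow 2).fun_mul hA).fun_div
    ((d.fun_pow 5).fun_mul (u0.fun_pow 7)) hne) ?_
  simp only [z1, z2, z4, z5, z6, Real.sin_zero, Real.cos_zero, zero_add, Nat.reduceAdd]
  push_cast
  field_simp
  ring

end Pool.Agent.R462.PL
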