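import Pool.Agent.R462.PL.Final

set_option autoImplicit false

open Filter Topology Real

namespace Pool.Agent.R462.PL

/-- `u` is the support function of an ellipse with centre `0`. -/
def IsEllipse (u : ℝ → ℝ) : Prop :=
  (∀ θ, 0 < u θ) ∧ ∃ A B C : ℝ, B ^ 2 < A * C ∧
    ∀ θ, u θ ^ 2 = A * cos θ ^ 2 + 2 * B * cos θ * sin θ + C * sin θ ^ 2

section

variable {u : ℕ → ℝ → ℝ} (du : ∀ i t, HasDerivAt (u i) (u (i + 1) t) t)
include du

/-- The radius of curvature of an ellipse. -/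
theorem ellipse_curv {A B C : ℝ}
    (hu : ∀ θ, u 0 θ ^ 2 = A * cos θ ^ 2 + 2 * B * cos θ * sin θ + C * sin θ ^ 2) (θ : ℝ) :
    u 0 θ ^ 3 * bb u 0 θ = A * C - B ^ 2 ∧
    u 0 θ * u 1 θ = (C - A) * cos θ * sin θ + B * (cos θ ^ 2 - sin θ ^ 2) := by
  have hc := Real.hasDerivAt_cos
  have hs := Real.hasDerivAt_sin
  have e1 : ∀ θ, u 0 θ * u 1 θ = (C - A) * cos θ * sin θ + B * (cos θ ^ 2 - sin θ ^ 2) := by
    intro θ
    have a1 := (du 0 θ).fun_pow 2
    have a2 := (((((hc θ).fun_pow 2).const_mul A).fun_add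
      ((((hc θ).const_mul (2 * B))).fun_mul (hs θ)))).fun_add (((hs θ).fun_pow 2).const_mul C)
    have a3 := a1.unique (a2.congr_of_eventuallyEq (Filter.Eventually.of_forall hu))
    push_cast at a3
    try simp only [zero_add] at a3
    linear_combination a3 / 2
  have e2 : ∀ θ, u 1 θ * u 1 θ + u 0 θ * u 2 θ
      = (C - A) * (cos θ ^ 2 - sin θ ^ 2) - 4 * B * cos θ * sin θ := by
    intro θ
    have a1 := (du 0 θ).fun_mul (du 1 θ)
    have a2 := (((hc θ).const_mul (C - A)).fun_mul (hs θ)).fun_add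
      ((((hc θ).fun_pow 2).fun_sub ((hs θ).fun_pow 2)).const_mul B)
    have a3 := a1.unique (a2.congr_of_eventuallyEq (Filter.Eventually.of_forall e1))
    push_cast at a3
    try simp only [zero_add] at a3
    linear_combination a3
  refine ⟨?_, e1 θ⟩
  have b0 := hu θ
  have b1 := e1 θ
  have b2 := e2 θ
  have hsc := Real.sin_sq_add_cos_sq θ
  have : u 0 θ ^ 3 * bb u 0 θ
      = (u 0 θ ^ 2) ^ 2 + (u 0 θ ^ 2) * (u 1 θ * u 1 θ + u 0 θ * u 2 θ) - (u 0 θ * u 1 θ) ^ 2 := by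
    simp only [bb, zero_add]
    ring
  rw [this, b0, b1, b2]
  have h4 : (A * C - B ^ 2) = (A * C - B ^ 2) * (sin θ ^ 2 + cos θ ^ 2) ^ 2 := by
    rw [hsc]
    ring
  rw [h4]
  ring

/-- The derivative of the constancy of the centroaffine curvature. -/
theorem ellipse_curv' {Δ : ℝ} (hu : ∀ θ, u 0 θ ^ 3 * bb u 0 θ = Δ) (h0 : ∀ θ, u 0 θ ≠ 0) (θ : ℝ) :
    u 0 θ * bb u 1 θ + 3 * u 1 θ * bb u 0 θ = 0 := by
  have a1 := ((du 0 θ).fun_pow 3).fun_mul (hasDerivAt_bb du 0 θ)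
  have a2 : HasDerivAt (fun θ => u 0 θ ^ 3 * bb u 0 θ) 0 θ :=
    (hasDerivAt_const θ Δ).congr_of_eventuallyEq (Filter.Eventually.of_forall hu)
  have a3 := a1.unique a2
  push_cast at a3
  try simp only [zero_add] at a3
  have h2 : u 0 θ ^ 2 * (u 0 θ * bb u 1 θ + 3 * u 1 θ * bb u 0 θ) = 0 := by
    linear_combination a3
  rcases mul_eq_zero.1 h2 with h3 | h3
  · exact absurd h3 (pow_ne_zero 2 (h0 θ))
  · exact h3

end

end Pool.Agent.R462.PL
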