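import Pool.Agent.R462.PL.Ellipse

set_option autoImplicit false

open Filter Topology Real

namespace Pool.Agent.R462.PL

/-- The polynomial in the differential equation. -/
def E5 (p0 p1 p2 p3 h0 h1 h2 h3 : ℝ) : ℝ :=
  108 * (h0 + h2) * h0 * h1 * p0 ^ 3 + 99 * (h0 + h2) * h0 ^ 2 * p0 ^ 2 * p1
    - 63 * (h1 + h3) * h0 ^ 2 * p0 ^ 3 - 135 * h1 ^ 3 * p0 ^ 3
    + 162 * h0 * h1 * h2 * p0 ^ 3 - 135 * h0 * h1 ^ 2 * p0 ^ 2 * p1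
    - 105 * h0 ^ 2 * h1 * p0 * p1 ^ 2 + 45 * h0 ^ 2 * h1 * p0 ^ 2 * p2
    + 81 * h0 ^ 2 * h2 * p0 ^ 2 * p1 - 27 * h0 ^ 2 * h3 * p0 ^ 3 - 65 * h0 ^ 3 * p1 ^ 3
    + 60 * h0 ^ 3 * p0 * p1 * p2 - 9 * h0 ^ 3 * p0 ^ 2 * p3

/-- The first integral. -/
noncomputable def PI (Δ p0 p1 p2 h0 h1 h2 : ℝ) : ℝ :=
  h0 ^ 4 * (p2 / p0) - 5 / 3 * h0 ^ 4 * (p1 / p0) ^ 2 + 3 * h0 ^ 3 * h2 - 3 * h0 ^ 2 * h1 ^ 2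
    - 2 * h0 ^ 3 * h1 * (p1 / p0) + 33 / 7 * Δ

/-- Its derivative. -/
noncomputable def PI' (p0 p1 p2 p3 h0 h1 h2 h3 : ℝ) : ℝ :=
  4 * h0 ^ 3 * h1 * (p2 / p0) + h0 ^ 4 * (p3 / p0 - p1 * p2 / p0 ^ 2)
    - 20 / 3 * h0 ^ 3 * h1 * (p1 / p0) ^ 2
    - 10 / 3 * h0 ^ 4 * (p1 / p0) * (p2 / p0 - p1 ^ 2 / p0 ^ 2)
    + 9 * h0 ^ 2 * h1 * h2 + 3 * h0 ^ 3 * h3 - 6 * h0 * h1 ^ 3 - 6 * h0 ^ 2 * h1 * h2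
    - 6 * h0 ^ 2 * h1 ^ 2 * (p1 / p0) - 2 * h0 ^ 3 * h2 * (p1 / p0)
    - 2 * h0 ^ 3 * h1 * (p2 / p0 - p1 ^ 2 / p0 ^ 2)

theorem alg_gauge {Δ p0 p1 p2 p3 h0 h1 h2 h3 : ℝ} (hp : p0 ≠ 0) (hh : h0 ≠ 0)
    (e5 : E5 p0 p1 p2 p3 h0 h1 h2 h3 = 0) (k0 : h0 ^ 3 * (h0 + h2) = Δ)
    (k1 : h0 * (h1 + h3) + 3 * h1 * (h0 + h2) = 0) :
    PI' p0 p1 p2 p3 h0 h1 h2 h3 = 7 / 3 * (p1 / p0 + 3 * h1 / h0) * PI Δ p0 p1 p2 h0 h1 h2 := by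
  have key : PI' p0 p1 p2 p3 h0 h1 h2 h3 - 7 / 3 * (p1 / p0 + 3 * h1 / h0) * PI Δ p0 p1 p2 h0 h1 h2
      = -(h0 / (9 * p0 ^ 3)) * E5 p0 p1 p2 p3 h0 h1 h2 h3
        - 7 * h0 ^ 2 * (h0 * (h1 + h3) + 3 * h1 * (h0 + h2))
        + 11 * (p1 / p0 + 3 * h1 / h0) * (h0 ^ 3 * (h0 + h2) - Δ) := by
    unfold PI' PI E5
    field_simp
    ring
  rw [e5, k1, k0] at key
  linear_combination key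

end Pool.Agent.R462.PL
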