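import Pool.Agent.R462.PL.Curve

set_option autoImplicit false

open Filter Topology Real

namespace Pool.Agent.R462.PL

variable {H h : ℕ → ℝ → ℝ}

/-- The local form of the hypothesis: the leaf number `r` meets the tangent line at the distances
`x` and `y` on the two sides. -/
def LocInv (H h : ℕ → ℝ → ℝ) : Prop :=
  ∃ c : ℝ, ∃ ε : ℝ, 0 < ε ∧ ∀ r x y t₁ t₂ : ℝ, 0 < r → r < ε → 0 < x → x < ε → 0 < y → y < ε →
    |t₁| < ε → |t₂| < ε →
    MM H t₁ + r * MM h t₁ = H 0 0 → NN H t₁ + r * NN h t₁ = H 1 0 + x →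
    MM H t₂ + r * MM h t₂ = H 0 0 → NN H t₂ + r * NN h t₂ = H 1 0 - y → 1 / x - 1 / y = c

variable (dH : ∀ i t, HasDerivAt (H i) (H (i + 1) t) t)
  (dh : ∀ i t, HasDerivAt (h i) (h (i + 1) t) t)
include dH dh

theorem rr_spec {t : ℝ} (hM : MM h t ≠ 0) :
    MM H t + rr H h t * MM h t = H 0 0 ∧ NN H t + rr H h t * NN h t = H 1 0 + XX H h t := by
  constructor
  · simp only [rr]
    field_simp
    ring
  · simp only [XX]
    ring

/-- Near `0` everything is fine. -/
theorem good (h0 : 0 < h 0 0) (hD : 0 < bb H 0 0) :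
    ∃ δ : ℝ, 0 < δ ∧ δ < 1 ∧ ∀ t : ℝ, |t| ≤ δ → 0 < MM h t ∧ 0 < DD H h t ∧ 0 < h 0 t := by
  obtain ⟨z1, z2, -, z4, z5, z6⟩ := at_zero (H := H) (h := h)
  have hM : MM h 0 ≠ 0 := by rw [z1]; exact h0.ne'
  have c1 : ∀ᶠ t in 𝓝 (0 : ℝ), 0 < MM h t :=
    (hasDerivAt_MM dh 0).continuousAt.eventually (eventually_gt_nhds (by rw [z1]; exact h0))
  have c2 : ∀ᶠ t in 𝓝 (0 : ℝ), 0 < DD H h t :=
    (hasDerivAt_DD dH dh hM).continuousAt.eventually (eventually_gt_nhds (by rw [z4]; exact hD))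
  have c3 : ∀ᶠ t in 𝓝 (0 : ℝ), 0 < h 0 t :=
    (dh 0 0).continuousAt.eventually (eventually_gt_nhds h0)
  obtain ⟨δ, hδ, hh⟩ := Metric.eventually_nhds_iff.1 ((c1.and c2).and c3)
  refine ⟨min (δ / 2) (1 / 2), by positivity, by
    have := min_le_right (δ / 2) (1 / 2 : ℝ)
    linarith, fun t ht => ?_⟩
  have h1 : dist t 0 < δ := by
    rw [Real.dist_eq, sub_zero]
    have := min_le_left (δ / 2) (1 / 2 : ℝ)
    linarith
  exact ⟨(hh h1).1.1, (hh h1).1.2, (hh h1).2⟩

theorem relation (h0 : 0 < h 0 0) (hD : 0 < bb H 0 0) (hinv : LocInv H h) :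
    9 * F2 H h 0 ^ 2 * (deriv (F4 H h) 0 / X1 H h 0) - 30 * F2 H h 0 * F3 H h 0 * F4 H h 0
      + 20 * F3 H h 0 ^ 3 = 0 := by
  obtain ⟨δ, hδ, hδ1, hg⟩ := good dH dh h0 hD
  obtain ⟨z1, z2, z3, z4, z5, z6⟩ := at_zero (H := H) (h := h)
  obtain ⟨c, ε, hε, hc⟩ := hinv
  have hM0 : MM h 0 ≠ 0 := by rw [z1]; exact h0.ne'
  have dX : ∀ t, |t| ≤ δ → HasDerivAt (XX H h) (X1 H h t) t := fun t ht =>
    hasDerivAt_XX dH dh (hg t ht).1.ne'
  have dr : ∀ t, |t| ≤ δ → HasDerivAt (rr H h) (F1 h t * X1 H h t) t := fun t ht =>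
    d0 dH dh (hg t ht).1.ne' (hg t ht).2.2.ne'
  have X1pos : ∀ t, |t| ≤ δ → 0 < X1 H h t := fun t ht => by
    obtain ⟨a, b, c⟩ := hg t ht
    exact div_pos (mul_pos b c) a
  -- strict differentiability of `XX` at `0`
  have cX1 : ContinuousAt (X1 H h) 0 := by
    have e1 := (hasDerivAt_DD dH dh hM0).continuousAt
    have e2 := (dh 0 0).continuousAt
    have e3 := (hasDerivAt_MM dh 0).continuousAt
    exact (e1.mul e2).div e3 hM0
  have ev : ∀ᶠ t in 𝓝 (0 : ℝ), |t| ≤ δ := by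
    filter_upwards [Metric.ball_mem_nhds (0 : ℝ) hδ] with t ht
    rw [Metric.mem_ball, Real.dist_eq, sub_zero] at ht
    exact ht.le
  have hst : HasStrictDerivAt (XX H h) (X1 H h 0) 0 :=
    hasStrictDerivAt_of_hasDerivAt_of_continuousAt (ev.mono fun t ht => dX t ht) cX1
  have hne : X1 H h 0 ≠ 0 := (X1pos 0 (by simpa using hδ.le)).ne'
  have hst' := hst.hasStrictFDerivAt_equiv hne
  set f := hst'.toOpenPartialHomeomorph (XX H h) with hf
  have hfc : ∀ t, f t = XX H h t := fun t => by rw [hf]; rfl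
  have h0s : (0 : ℝ) ∈ f.source := hst'.mem_toOpenPartialHomeomorph_source
  have h0t : (0 : ℝ) ∈ f.target := by
    have := f.map_source h0s
    rwa [hfc, z3] at this
  obtain ⟨g, hgd⟩ : ∃ g : ℝ → ℝ, ∀ x, g x = f.symm x := ⟨_, fun _ => rfl⟩
  have hgf : ∀ t ∈ f.source, g (XX H h t) = t := fun t ht => by
    rw [hgd, ← hfc]
    exact f.left_inv ht
  have hfg : ∀ x ∈ f.target, XX H h (g x) = x := fun x hx => by
    rw [hgd, ← hfc]
    exact f.right_inv hx
  have g0 : g 0 = 0 := by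
    have := hgf 0 h0s
    rwa [z3] at this
  have cg : ContinuousAt g 0 := by
    have h1 := f.continuousAt_symm h0t
    have h2 : g = f.symm := funext hgd
    rw [h2]
    exact h1
  have tg : Tendsto g (𝓝 0) (𝓝 0) := by
    have := cg.tendsto
    rwa [g0] at this
  have evT : ∀ᶠ x in 𝓝 (0 : ℝ), x ∈ f.target := f.open_target.mem_nhds h0t
  have evS : ∀ᶠ t in 𝓝 (0 : ℝ), t ∈ f.source := f.open_source.mem_nhds h0s
  have dg : ∀ᶠ x in 𝓝 (0 : ℝ), HasDerivAt g (X1 H h (g x))⁻¹ x := by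
    filter_upwards [evT, tg.eventually ev] with x hx1 hx2
    have h2 : g = f.symm := funext hgd
    have h3 : HasDerivAt f (X1 H h (g x)) (f.symm x) := by
      have h4 := dX (g x) hx2
      rw [hgd x] at h4 ⊢
      have h5 : (f : ℝ → ℝ) = XX H h := funext hfc
      rw [h5]
      exact h4
    have h6 := f.hasDerivAt_symm hx1 (X1pos (g x) hx2).ne' h3
    rw [← h2] at h6
    exact h6
  have comp : ∀ A A' : ℝ → ℝ, (∀ᶠ t in 𝓝 (0 : ℝ), HasDerivAt A (A' t * X1 H h t) t) →
      ∀ᶠ x in 𝓝 (0 : ℝ), HasDerivAt (fun x => A (g x)) (A' (g x)) x := by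
    intro A A' hA
    filter_upwards [tg.eventually hA, dg, tg.eventually ev] with x a1 a2 a3
    refine HasDerivAt.congr_deriv (a1.comp x a2) ?_
    rw [mul_assoc, mul_inv_cancel₀ (X1pos (g x) a3).ne', mul_one]
  have e0 := comp (rr H h) (F1 h) (ev.mono fun t ht => dr t ht)
  have e1 := comp (F1 h) (F2 H h) (ev.mono fun t ht =>
    d1 dh (hg t ht).1.ne' (hg t ht).2.2.ne' (hg t ht).2.1.ne')
  have e2 := comp (F2 H h) (F3 H h) (ev.mono fun t ht =>
    d2 dH dh (hg t ht).1.ne' (hg t ht).2.2.ne' (hg t ht).2.1.ne')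
  have e3 := comp (F3 H h) (F4 H h) (ev.mono fun t ht =>
    d3 dH dh (hg t ht).1.ne' (hg t ht).2.2.ne' (hg t ht).2.1.ne')
  have e4 := comp (F4 H h) (fun t => deriv (F4 H h) t / X1 H h t) (ev.mono fun t ht => by
    rw [div_mul_cancel₀ _ (X1pos t ht).ne']
    exact (differentiableAt_F4 dH dh (hg t ht).1.ne' (hg t ht).2.2.ne'
      (hg t ht).2.1.ne').hasDerivAt)
  -- the sign of the derivative of `rr`
  have rneg : StrictAntiOn (rr H h) (Set.Icc (-δ) 0) := by
    refine strictAntiOn_of_deriv_neg (convex_Icc _ _) ?_ ?_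
    · intro t ht
      exact (dr t (abs_le.2 ⟨ht.1, ht.2.trans hδ.le⟩)).continuousAt.continuousWithinAt
    · intro t ht
      rw [interior_Icc] at ht
      have h1 : |t| ≤ δ := abs_le.2 ⟨ht.1.le, ht.2.le.trans hδ.le⟩
      rw [(dr t h1).deriv]
      have h2 : sin t < 0 := Real.sin_neg_of_neg_of_neg_pi_lt ht.2 (by
        have := ht.1
        have := Real.pi_gt_three
        linarith)
      have h3 : F1 h t < 0 := div_neg_of_neg_of_pos h2 (hg t h1).2.2
      exact mul_neg_of_neg_of_pos h3 (X1pos t h1)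
  have rpos : StrictMonoOn (rr H h) (Set.Icc 0 δ) := by
    refine strictMonoOn_of_deriv_pos (convex_Icc _ _) ?_ ?_
    · intro t ht
      exact (dr t (abs_le.2 ⟨by linarith [ht.1], ht.2⟩)).continuousAt.continuousWithinAt
    · intro t ht
      rw [interior_Icc] at ht
      have h1 : |t| ≤ δ := abs_le.2 ⟨by linarith [ht.1], ht.2.le⟩
      rw [(dr t h1).deriv]
      have h2 : 0 < sin t := Real.sin_pos_of_pos_of_lt_pi ht.1 (by
        have := ht.2
        have := Real.pi_gt_three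
        linarith)
      exact mul_pos (div_pos h2 (hg t h1).2.2) (X1pos t h1)
  have Xmono : StrictMonoOn (XX H h) (Set.Icc (-δ) δ) := by
    refine strictMonoOn_of_deriv_pos (convex_Icc _ _) ?_ ?_
    · intro t ht
      exact (dX t (abs_le.2 ht)).continuousAt.continuousWithinAt
    · intro t ht
      rw [interior_Icc] at ht
      have h1 : |t| ≤ δ := abs_le.2 ⟨ht.1.le, ht.2.le⟩
      rw [(dX t h1).deriv]
      exact X1pos t h1
  -- choose a small `η`
  have cr : ContinuousAt (rr H h) 0 := (dr 0 (by simpa using hδ.le)).continuousAt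
  have cX : ContinuousAt (XX H h) 0 := (dX 0 (by simpa using hδ.le)).continuousAt
  have evr : ∀ᶠ t in 𝓝 (0 : ℝ), rr H h t < ε := cr.eventually (eventually_lt_nhds (by rw [z2]; exact hε))
  have evX : ∀ᶠ t in 𝓝 (0 : ℝ), |XX H h t| < ε :=
    cX.abs.eventually (eventually_lt_nhds (by simp only [z3, abs_zero]; exact hε))
  obtain ⟨η, hη, hη'⟩ := Metric.eventually_nhds_iff.1 ((evr.and evX).and (evS.and ev))
  obtain ⟨η₁, hη₁, hη₁a, hη₁b⟩ : ∃ η₁ : ℝ, 0 < η₁ ∧ η₁ < η ∧ η₁ < ε :=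
    ⟨min η ε / 2, by positivity, by
      have := min_le_left η ε
      have : 0 < min η ε := lt_min hη hε
      linarith, by
      have := min_le_right η ε
      have : 0 < min η ε := lt_min hη hε
      linarith⟩
  have near : ∀ t : ℝ, |t| ≤ η₁ → rr H h t < ε ∧ |XX H h t| < ε ∧ t ∈ f.source ∧ |t| ≤ δ := by
    intro t ht
    have h1 : dist t 0 < η := by
      rw [Real.dist_eq, sub_zero]
      linarith
    exact ⟨(hη' h1).1.1, (hη' h1).1.2, (hη' h1).2.1, (hη' h1).2.2⟩
  have hηδ : η₁ ≤ δ := by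
    have := (near η₁ (by rw [abs_of_pos hη₁])).2.2.2
    rwa [abs_of_pos hη₁] at this
  have rη : 0 < rr H h (-η₁) := by
    have := rneg (a := -η₁) (b := 0) ⟨by linarith, by linarith⟩ ⟨by linarith, le_rfl⟩ (by linarith)
    rwa [z2] at this
  -- invariance for positive `x`
  have evx : ∀ᶠ x in 𝓝 (0 : ℝ), rr H h (g x) < rr H h (-η₁) := by
    have h1 : ContinuousAt (fun x => rr H h (g x)) 0 := by
      refine ContinuousAt.comp (f := g) (g := rr H h) ?_ cg
      rw [g0]
      exact cr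
    exact h1.eventually (eventually_lt_nhds (by simp only [g0, z2]; exact rη))
  have evg : ∀ᶠ x in 𝓝 (0 : ℝ), |g x| ≤ η₁ := by
    filter_upwards [tg.eventually (Metric.ball_mem_nhds (0 : ℝ) hη₁)] with x hx
    have hx' : dist (g x) 0 < η₁ := hx
    rw [Real.dist_eq, sub_zero] at hx'
    exact hx'.le
  have pos : ∀ᶠ x in 𝓝 (0 : ℝ), 0 < x → rr H h (g x) = rr H h (g (-(x / (1 - c * x)))) := by
    filter_upwards [evx, evg, evT] with x a1 a2 a3 hx
    obtain ⟨b1, b2, b3, b4⟩ := near (g x) a2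
    have hXg := hfg x a3
    have gpos : 0 < g x := by
      by_contra hcon
      push Not at hcon
      have h1 := Xmono.monotoneOn (a := g x) (b := 0) (abs_le.1 b4) ⟨by linarith, hδ.le⟩ hcon
      rw [hXg, z3] at h1
      linarith
    have rg : 0 < rr H h (g x) := by
      have := rpos (a := 0) (b := g x) ⟨le_rfl, hδ.le⟩ ⟨gpos.le, (abs_le.1 b4).2⟩ gpos
      rwa [z2] at this
    have hcont : ContinuousOn (rr H h) (Set.Icc (-η₁) 0) := fun t ht =>
      (dr t (abs_le.2 ⟨by linarith [ht.1], by linarith [ht.2]⟩)).continuousAt.continuousWithinAt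
    have hiv := intermediate_value_Icc' (by linarith : -η₁ ≤ 0) hcont
    obtain ⟨t₂, ht₂, hrt₂⟩ := hiv (by rw [z2]; exact ⟨rg.le, a1.le⟩)
    have t₂neg : t₂ < 0 := by
      rcases lt_or_eq_of_le ht₂.2 with h1 | h1
      · exact h1
      · rw [h1, z2] at hrt₂
        linarith
    have ht₂' : |t₂| ≤ η₁ := abs_le.2 ⟨ht₂.1, by linarith⟩
    obtain ⟨c1, c2, c3, c4⟩ := near t₂ ht₂'
    have hy : XX H h t₂ < 0 := by
      have := Xmono (a := t₂) (b := 0) (abs_le.1 c4) ⟨by linarith, hδ.le⟩ t₂neg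
      rwa [z3] at this
    obtain ⟨s1, s2⟩ := rr_spec dH dh (H := H) (h := h) (t := g x) (hg _ b4).1.ne'
    obtain ⟨s3, s4⟩ := rr_spec dH dh (H := H) (h := h) (t := t₂) (hg _ c4).1.ne'
    rw [hrt₂] at s3 s4
    rw [hXg] at s2
    have key := hc (rr H h (g x)) x (-(XX H h t₂)) (g x) t₂ rg b1 hx
      (by rw [hXg] at b2; exact (abs_lt.1 b2).2) (by linarith)
      (by linarith [(abs_lt.1 c2).1]) (by linarith) (by linarith) s1 s2 s3 (by rw [s4]; ring)
    have hx' := hx.ne'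
    have hy' : XX H h t₂ ≠ 0 := hy.ne
    have e5 : XX H h t₂ = -(x / (1 - c * x)) := by
      have h1 : 1 - c * x ≠ 0 := by
        intro h2
        rw [← key] at h2
        field_simp at h2
        have : x = 0 ∨ XX H h t₂ = 0 := by
          right
          nlinarith
        rcases this with h3 | h3
        · exact hx' h3
        · exact hy' h3
      rw [← key]
      have h2 : 1 - (1 / x - 1 / -(XX H h t₂)) * x = -(x / XX H h t₂) := by
        field_simp
        ring
      rw [h2]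
      field_simp
    rw [← e5, hgf t₂ c3, hrt₂]
  -- all `x`
  have hone : ∀ᶠ x in 𝓝 (0 : ℝ), 0 < 1 - c * x := by
    have : ContinuousAt (fun x : ℝ => 1 - c * x) 0 := by fun_prop
    exact this.eventually (eventually_gt_nhds (by simp))
  have tmap : Tendsto (fun x : ℝ => -(x / (1 - c * x))) (𝓝 0) (𝓝 0) := by
    have h1 : ContinuousAt (fun x : ℝ => -(x / (1 - c * x))) 0 := by
      apply ContinuousAt.neg
      exact ContinuousAt.div (by fun_prop) (by fun_prop) (by simp)
    simpa using h1.tendsto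
  have all : ∀ᶠ x in 𝓝 (0 : ℝ), rr H h (g x) = rr H h (g (-(x / (1 - c * x)))) := by
    filter_upwards [pos, tmap.eventually pos, hone] with x a1 a2 a3
    rcases lt_trichotomy x 0 with hx | hx | hx
    · have h1 : 0 < -(x / (1 - c * x)) := by
        have := div_neg_of_neg_of_pos hx a3
        linarith
      have h2 := a2 h1
      have h3 : -(-(x / (1 - c * x)) / (1 - c * -(x / (1 - c * x)))) = x := by
        have h4 := a3.ne'
        have h5 : 1 - c * -(x / (1 - c * x)) = 1 / (1 - c * x) := by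
          field_simp
          ring
        rw [h5, div_div_eq_mul_div, div_one, neg_mul, neg_neg, div_mul_cancel₀ _ h4]
      rw [h3] at h2
      exact h2.symm
    · subst hx
      simp
    · exact a1 hx
  have hF1 : F1 h (g 0) = 0 := by
    rw [g0]
    simp [F1]
  have := parity e0 e1 e2 e3 e4 all hF1
  simp only [g0] at this
  exact this

end Pool.Agent.R462.PL
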