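import Pool.Agent.R462.PL.Body

set_option autoImplicit false

open Filter Topology Real

namespace Pool.Agent.R462.PL

theorem jt_periodic {u : ℝ → ℝ} (hu : Function.Periodic u (2 * π)) (i : ℕ) :
    Function.Periodic (jt u 0 i) (2 * π) := by
  intro t
  have h1 : (fun z => u (z + 2 * π)) = u := funext hu
  have h2 := congrFun (iteratedDeriv_comp_add_const i u (2 * π)) t
  rw [h1] at h2
  simp only [jt, zero_add]
  exact h2.symm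

theorem bb_periodic {u : ℝ → ℝ} (hu : Function.Periodic u (2 * π)) (i : ℕ) :
    Function.Periodic (bb (jt u 0) i) (2 * π) := by
  intro t
  simp only [bb]
  rw [jt_periodic hu i t, jt_periodic hu (i + 2) t]

theorem circle_seq {u : ℕ → ℝ → ℝ} (du : ∀ i t, HasDerivAt (u i) (u (i + 1) t) t)
    (hR : ∀ θ, bb u 0 θ = 0) : ∃ a b, ∀ θ, u 0 θ = a * cos θ + b * sin θ := by
  have c1 : ∀ θ, HasDerivAt (MM u) 0 θ := by
    intro θ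
    refine HasDerivAt.congr_deriv (hasDerivAt_MM du θ) ?_
    rw [hR]
    ring
  have c2 : ∀ θ, HasDerivAt (NN u) 0 θ := by
    intro θ
    refine HasDerivAt.congr_deriv (hasDerivAt_NN du θ) ?_
    rw [hR]
    ring
  have k1 : ∀ θ, MM u θ = MM u 0 := fun θ =>
    is_const_of_deriv_eq_zero (fun θ => (c1 θ).differentiableAt) (fun θ => (c1 θ).deriv) θ 0
  have k2 : ∀ θ, NN u θ = NN u 0 := fun θ =>
    is_const_of_deriv_eq_zero (fun θ => (c2 θ).differentiableAt) (fun θ => (c2 θ).deriv) θ 0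
  refine ⟨MM u 0, NN u 0, fun θ => ?_⟩
  rw [← k1 θ, ← k2 θ]
  simp only [MM, NN]
  linear_combination (-u 0 θ) * Real.sin_sq_add_cos_sq θ

section gauge

variable {H h : ℝ → ℝ} (hH : ContDiff ℝ (⊤ : ℕ∞) H) (hh : ContDiff ℝ (⊤ : ℕ∞) h)
  (curv : ∀ θ, 0 < H θ + deriv (deriv H) θ) (hpos : ∀ θ, 0 < h θ)
  (inv : ProjectiveInvolutions H h)
include hH hh curv hpos inv

omit hh hpos inv hH in
theorem bb_pos (θ : ℝ) : 0 < bb (jt H 0) 0 θ := by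
  have := curv θ
  simp only [bb, jt, zero_add, iteratedDeriv_zero]
  rwa [iteratedDeriv_succ, iteratedDeriv_one]

theorem ode' (θ : ℝ) : E5 (bb (jt H 0) 0 θ) (bb (jt H 0) 1 θ) (bb (jt H 0) 2 θ) (bb (jt H 0) 3 θ)
    (jt h 0 0 θ) (jt h 0 1 θ) (jt h 0 2 θ) (jt h 0 3 θ) = 0 := by
  have := ode hH hh curv hpos inv θ
  have e0 : bb (jt h 0) 0 θ = jt h 0 0 θ + jt h 0 2 θ := rfl
  have e1 : bb (jt h 0) 1 θ = jt h 0 1 θ + jt h 0 3 θ := rfl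
  rw [e0, e1] at this
  unfold E5
  linear_combination this

/-- If the gauge is an ellipse, the centroaffine radius of curvature is constant. -/
theorem gauge_case (perH : Function.Periodic H (2 * π)) (perh : Function.Periodic h (2 * π))
    {Δ : ℝ} (hΔ : 0 < Δ) (ell : ∀ θ, jt h 0 0 θ ^ 3 * bb (jt h 0) 0 θ = Δ) :
    ∃ R₀ : ℝ, ∀ θ, bb (jt H 0) 0 θ * jt h 0 0 θ ^ 3 = R₀ := by
  have dg := hasDerivAt_jt hh 0
  have dp := hasDerivAt_bb (hasDerivAt_jt hH 0)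
  have hg : ∀ θ, 0 < jt h 0 0 θ := fun θ => by simpa [jt] using hpos θ
  have hp : ∀ θ, 0 < bb (jt H 0) 0 θ := bb_pos curv
  have e5 := ode' hH hh curv hpos inv
  have k1 := ellipse_curv' dg ell (fun θ => (hg θ).ne')
  have pg := jt_periodic perh 0
  have pp := bb_periodic perH 0
  obtain ⟨g, hgd⟩ : ∃ g : ℕ → ℝ → ℝ, g = jt h 0 := ⟨_, rfl⟩
  obtain ⟨p, hpd⟩ : ∃ p : ℕ → ℝ → ℝ, p = bb (jt H 0) := ⟨_, rfl⟩
  have eb : ∀ i θ, bb (jt h 0) i θ = jt h 0 i θ + jt h 0 (i + 2) θ := fun _ _ => rfl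
  simp only [eb, zero_add, Nat.reduceAdd] at ell k1
  rw [← hgd] at dg hg e5 k1 pg ell
  rw [← hpd] at dp hp e5 pp
  rw [← hgd, ← hpd]
  clear hgd hpd eb
  -- the function and its derivatives
  have d0 : ∀ θ, HasDerivAt (fun θ => p 0 θ * g 0 θ ^ 3)
      (p 1 θ * g 0 θ ^ 3 + 3 * p 0 θ * g 0 θ ^ 2 * g 1 θ) θ := fun θ => by
    refine HasDerivAt.congr_deriv ((dp 0 θ).fun_mul ((dg 0 θ).fun_pow 3)) ?_
    push_cast
    ring
  have d1 : ∀ θ, HasDerivAt (fun θ => p 1 θ * g 0 θ ^ 3 + 3 * p 0 θ * g 0 θ ^ 2 * g 1 θ)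
      (p 2 θ * g 0 θ ^ 3 + 6 * p 1 θ * g 0 θ ^ 2 * g 1 θ + 6 * p 0 θ * g 0 θ * g 1 θ ^ 2
        + 3 * p 0 θ * g 0 θ ^ 2 * g 2 θ) θ := fun θ => by
    refine HasDerivAt.congr_deriv (((dp 1 θ).fun_mul ((dg 0 θ).fun_pow 3)).fun_add
      ((((dp 0 θ).const_mul 3).fun_mul ((dg 0 θ).fun_pow 2)).fun_mul (dg 1 θ))) ?_
    push_cast
    ring
  have dP : ∀ θ, HasDerivAt (fun θ => PI Δ (p 0 θ) (p 1 θ) (p 2 θ) (g 0 θ) (g 1 θ) (g 2 θ))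
      (7 / 3 * (p 1 θ / p 0 θ + 3 * g 1 θ / g 0 θ)
        * PI Δ (p 0 θ) (p 1 θ) (p 2 θ) (g 0 θ) (g 1 θ) (g 2 θ)) θ := fun θ => by
    have a1 := (dp 1 θ).fun_div (dp 0 θ) (hp θ).ne'
    have a2 := (dp 2 θ).fun_div (dp 0 θ) (hp θ).ne'
    have b0 := dg 0 θ
    have b1 := dg 1 θ
    have b2 := dg 2 θ
    have := (((((b0.fun_pow 4).fun_mul a2).fun_sub (((b0.fun_pow 4).const_mul (5 / 3)).fun_mul
      (a1.fun_pow 2))).fun_add (((b0.fun_pow 3).const_mul 3).fun_mul b2)).fun_sub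
      (((b0.fun_pow 2).const_mul 3).fun_mul (b1.fun_pow 2))).fun_sub
      ((((b0.fun_pow 3).const_mul 2).fun_mul b1).fun_mul a1) |>.add_const (33 / 7 * Δ)
    refine HasDerivAt.congr_deriv this ?_
    rw [← alg_gauge (hp θ).ne' (hg θ).ne' (e5 θ) (ell θ) (k1 θ)]
    unfold PI'
    have h1 := (hp θ).ne'
    push_cast
    try simp only [zero_add, Nat.reduceAdd]
    field_simp
    ring
  have hRpos : ∀ θ, 0 < p 0 θ * g 0 θ ^ 3 := fun θ => mul_pos (hp θ) (pow_pos (hg θ) 3)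
  have dJ : ∀ θ, HasDerivAt (fun θ => PI Δ (p 0 θ) (p 1 θ) (p 2 θ) (g 0 θ) (g 1 θ) (g 2 θ) ^ 3
      / (p 0 θ * g 0 θ ^ 3) ^ 7) 0 θ := fun θ => by
    refine HasDerivAt.congr_deriv (((dP θ).fun_pow 3).fun_div ((d0 θ).fun_pow 7)
      (pow_ne_zero 7 (hRpos θ).ne')) ?_
    have h1 := (hp θ).ne'
    have h2 := (hg θ).ne'
    push_cast
    field_simp
    ring
  have hJ : ∀ a b, PI Δ (p 0 a) (p 1 a) (p 2 a) (g 0 a) (g 1 a) (g 2 a) ^ 3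
      / (p 0 a * g 0 a ^ 3) ^ 7 = PI Δ (p 0 b) (p 1 b) (p 2 b) (g 0 b) (g 1 b) (g 2 b) ^ 3
      / (p 0 b * g 0 b ^ 3) ^ 7 := fun a b =>
    is_const_of_deriv_eq_zero (fun θ => (dJ θ).differentiableAt) (fun θ => (dJ θ).deriv) a b
  have per : Function.Periodic (fun θ => p 0 θ * g 0 θ ^ 3) (2 * π) := fun θ => by
    simp only
    rw [pp θ, pg θ]
  have hPval : ∀ θ, p 1 θ * g 0 θ ^ 3 + 3 * p 0 θ * g 0 θ ^ 2 * g 1 θ = 0 →
      PI Δ (p 0 θ) (p 1 θ) (p 2 θ) (g 0 θ) (g 1 θ) (g 2 θ) = 33 / 7 * Δ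
        + g 0 θ / p 0 θ * (p 2 θ * g 0 θ ^ 3 + 6 * p 1 θ * g 0 θ ^ 2 * g 1 θ
          + 6 * p 0 θ * g 0 θ * g 1 θ ^ 2 + 3 * p 0 θ * g 0 θ ^ 2 * g 2 θ) := fun θ h0 => by
    have h1 := (hp θ).ne'
    have h2 := (hg θ).ne'
    have h3 : p 1 θ = -(3 * p 0 θ * g 1 θ) / g 0 θ := by
      rw [eq_div_iff h2]
      have h4 : g 0 θ ^ 2 * (p 1 θ * g 0 θ + 3 * p 0 θ * g 1 θ) = 0 := by linear_combination h0
      rcases mul_eq_zero.1 h4 with h5 | h5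
      · exact absurd h5 (pow_ne_zero 2 h2)
      · linarith
    unfold PI
    rw [h3]
    field_simp
    ring
  obtain ⟨m, hm, hm1, hm2⟩ := exists_max Real.two_pi_pos per d0 d1
  obtain ⟨m', hm', hm1', hm2'⟩ := exists_max (W := fun θ => -(p 0 θ * g 0 θ ^ 3)) Real.two_pi_pos
    (fun θ => by
      have := per θ
      simp only at this ⊢
      rw [this]) (fun θ => (d0 θ).fun_neg) (fun θ => (d1 θ).fun_neg)
  have q1 : PI Δ (p 0 m) (p 1 m) (p 2 m) (g 0 m) (g 1 m) (g 2 m) ≤ 33 / 7 * Δ := by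
    rw [hPval m hm1]
    have : g 0 m / p 0 m * (p 2 m * g 0 m ^ 3 + 6 * p 1 m * g 0 m ^ 2 * g 1 m
          + 6 * p 0 m * g 0 m * g 1 m ^ 2 + 3 * p 0 m * g 0 m ^ 2 * g 2 m) ≤ 0 :=
      mul_nonpos_of_nonneg_of_nonpos (div_pos (hg m) (hp m)).le hm2
    linarith
  have q2 : 33 / 7 * Δ ≤ PI Δ (p 0 m') (p 1 m') (p 2 m') (g 0 m') (g 1 m') (g 2 m') := by
    rw [hPval m' (by linarith)]
    have : 0 ≤ g 0 m' / p 0 m' * (p 2 m' * g 0 m' ^ 3 + 6 * p 1 m' * g 0 m' ^ 2 * g 1 m'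
          + 6 * p 0 m' * g 0 m' * g 1 m' ^ 2 + 3 * p 0 m' * g 0 m' ^ 2 * g 2 m') :=
      mul_nonneg (div_pos (hg m') (hp m')).le (by linarith)
    linarith
  have q3 := hJ m m'
  have a0 : 0 < 33 / 7 * Δ := by positivity
  have a1 : PI Δ (p 0 m) (p 1 m) (p 2 m) (g 0 m) (g 1 m) (g 2 m) ^ 3 ≤ (33 / 7 * Δ) ^ 3 :=
    (Odd.strictMono_pow (by decide : Odd 3)).monotone q1
  have a2 : (33 / 7 * Δ) ^ 3 ≤ PI Δ (p 0 m') (p 1 m') (p 2 m') (g 0 m') (g 1 m') (g 2 m') ^ 3 :=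
    (Odd.strictMono_pow (by decide : Odd 3)).monotone q2
  rw [div_eq_div_iff (pow_ne_zero 7 (hRpos m).ne') (pow_ne_zero 7 (hRpos m').ne')] at q3
  have a3 : (33 / 7 * Δ) ^ 3 * (p 0 m * g 0 m ^ 3) ^ 7 ≤ (33 / 7 * Δ) ^ 3 * (p 0 m' * g 0 m' ^ 3) ^ 7 :=
    calc _ ≤ PI Δ (p 0 m') (p 1 m') (p 2 m') (g 0 m') (g 1 m') (g 2 m') ^ 3
            * (p 0 m * g 0 m ^ 3) ^ 7 :=
          mul_le_mul_of_nonneg_right a2 (pow_nonneg (hRpos m).le 7)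
      _ = PI Δ (p 0 m) (p 1 m) (p 2 m) (g 0 m) (g 1 m) (g 2 m) ^ 3
            * (p 0 m' * g 0 m' ^ 3) ^ 7 := q3.symm
      _ ≤ _ := mul_le_mul_of_nonneg_right a1 (pow_nonneg (hRpos m').le 7)
  have a4 : (p 0 m * g 0 m ^ 3) ^ 7 ≤ (p 0 m' * g 0 m' ^ 3) ^ 7 :=
    le_of_mul_le_mul_left a3 (pow_pos a0 3)
  have a5 : p 0 m * g 0 m ^ 3 ≤ p 0 m' * g 0 m' ^ 3 :=
    (pow_le_pow_iff_left₀ (hRpos m).le (hRpos m').le (by norm_num)).1 a4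
  refine ⟨p 0 m * g 0 m ^ 3, fun θ => le_antisymm (hm θ) ?_⟩
  have := hm' θ
  linarith

end gauge

end Pool.Agent.R462.PL
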