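import Pool.Agent.R462.PL.Main

set_option autoImplicit false

open Filter Topology Real

namespace Pool.Agent.R462.PL

/-- The derivatives of `a cos θ + b sin θ`. -/
noncomputable def TT (a b : ℝ) (i : ℕ) (θ : ℝ) : ℝ :=
  a * cos (θ + i * (π / 2)) + b * sin (θ + i * (π / 2))

theorem hasDerivAt_TT (a b : ℝ) (i : ℕ) (θ : ℝ) : HasDerivAt (TT a b i) (TT a b (i + 1) θ) θ := by
  have h1 : HasDerivAt (fun θ : ℝ => θ + i * (π / 2)) 1 θ := (hasDerivAt_id θ).add_const _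
  have c := (Real.hasDerivAt_cos (θ + i * (π / 2))).comp θ h1
  have s := (Real.hasDerivAt_sin (θ + i * (π / 2))).comp θ h1
  refine HasDerivAt.congr_deriv ((c.const_mul a).fun_add (s.const_mul b)) ?_
  have e : θ + ((i + 1 : ℕ) : ℝ) * (π / 2) = θ + i * (π / 2) + π / 2 := by
    push_cast
    ring
  simp only [TT]
  rw [e, Real.cos_add_pi_div_two, Real.sin_add_pi_div_two]
  ring

theorem bb_TT (a b : ℝ) (i : ℕ) (θ : ℝ) : bb (TT a b) i θ = 0 := by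
  simp only [bb, TT]
  have e : θ + ((i + 2 : ℕ) : ℝ) * (π / 2) = θ + i * (π / 2) + π := by
    push_cast
    ring
  rw [e, Real.cos_add_pi, Real.sin_add_pi]
  ring

/-- If the body is an ellipse, then the gauge is homothetic to it. -/
theorem body_case {H h : ℝ → ℝ} (hH : ContDiff ℝ (⊤ : ℕ∞) H) (hh : ContDiff ℝ (⊤ : ℕ∞) h)
    (curv : ∀ θ, 0 < H θ + deriv (deriv H) θ) (hpos : ∀ θ, 0 < h θ)
    (inv : ProjectiveInvolutions H h) (perH : Function.Periodic H (2 * π))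
    (perh : Function.Periodic h (2 * π)) {Δ a b : ℝ} (hΔ : 0 < Δ)
    (hG : ∀ θ, 0 < H θ - a * cos θ - b * sin θ)
    (ell : ∀ θ, (H θ - a * cos θ - b * sin θ) ^ 3 * bb (jt H 0) 0 θ = Δ) :
    ∃ μ : ℝ, ∀ θ, h θ = μ * (H θ - a * cos θ - b * sin θ) := by
  have dg := hasDerivAt_jt hh 0
  have dp := hasDerivAt_bb (hasDerivAt_jt hH 0)
  have hg : ∀ θ, 0 < jt h 0 0 θ := fun θ => by simpa [jt] using hpos θ
  have hp : ∀ θ, 0 < bb (jt H 0) 0 θ := bb_pos curv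
  have e5 := ode' hH hh curv hpos inv
  have pg := jt_periodic perh
  obtain ⟨G, hGd⟩ : ∃ G : ℕ → ℝ → ℝ, ∀ i θ, G i θ = jt H 0 i θ - TT a b i θ :=
    ⟨_, fun _ _ => rfl⟩
  have dG : ∀ i θ, HasDerivAt (G i) (G (i + 1) θ) θ := fun i θ => by
    have h1 : G i = fun θ => jt H 0 i θ - TT a b i θ := funext (hGd i)
    rw [h1, hGd]
    exact (hasDerivAt_jt hH 0 i θ).fun_sub (hasDerivAt_TT a b i θ)
  have bG : ∀ i θ, bb G i θ = bb (jt H 0) i θ := fun i θ => by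
    have := bb_TT a b i θ
    simp only [bb] at this ⊢
    rw [hGd, hGd]
    linear_combination -this
  have G0 : ∀ θ, G 0 θ = H θ - a * cos θ - b * sin θ := fun θ => by
    rw [hGd]
    simp [jt, TT]
    ring
  have hG0 : ∀ θ, 0 < G 0 θ := fun θ => by
    rw [G0]
    exact hG θ
  have ellG : ∀ θ, G 0 θ ^ 3 * bb G 0 θ = Δ := fun θ => by
    rw [G0, bG]
    exact ell θ
  have k1 := ellipse_curv' dG ellG (fun θ => (hG0 θ).ne')
  have perG : Function.Periodic (G 0) (2 * π) := fun θ => by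
    rw [G0, G0, perH θ, Real.cos_add_two_pi, Real.sin_add_two_pi]
  have perG1 : Function.Periodic (G 1) (2 * π) := fun θ => by
    rw [hGd, hGd, jt_periodic perH 1 θ]
    congr 1
    simp only [TT]
    rw [show θ + 2 * π + ((1 : ℕ) : ℝ) * (π / 2) = θ + ((1 : ℕ) : ℝ) * (π / 2) + 2 * π by ring,
      Real.cos_add_two_pi, Real.sin_add_two_pi]
  obtain ⟨p, hpd⟩ : ∃ p : ℕ → ℝ → ℝ, p = bb (jt H 0) := ⟨_, rfl⟩
  obtain ⟨g, hgd⟩ : ∃ g : ℕ → ℝ → ℝ, g = jt h 0 := ⟨_, rfl⟩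
  have g2 : ∀ θ, p 0 θ = G 0 θ + G 2 θ := fun θ => by rw [hpd, ← bG]; rfl
  have g3 : ∀ θ, p 1 θ = G 1 θ + G 3 θ := fun θ => by rw [hpd, ← bG]; rfl
  simp only [bG] at k1 ellG
  rw [← hpd] at k1 dp hp e5 ellG
  rw [← hgd] at dg hg e5 pg
  have hg0 : ∀ θ, h θ = g 0 θ := fun θ => by simp [hgd, jt]
  clear hpd hgd bG
  have k2 : ∀ θ, G 0 θ * p 2 θ + 4 * G 1 θ * p 1 θ + 3 * G 2 θ * p 0 θ = 0 := fun θ => by
    have a1 := ((dG 0 θ).fun_mul (dp 1 θ)).fun_add (((dG 1 θ).const_mul 3).fun_mul (dp 0 θ))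
    have a2 : HasDerivAt (fun θ => G 0 θ * p 1 θ + 3 * G 1 θ * p 0 θ) 0 θ :=
      (hasDerivAt_const θ (0 : ℝ)).congr_of_eventuallyEq (Filter.Eventually.of_forall k1)
    have a3 := a1.unique a2
    try simp only [zero_add, Nat.reduceAdd] at a3
    linear_combination a3
  have k3 : ∀ θ, G 0 θ * p 3 θ + 5 * G 1 θ * p 2 θ + 7 * G 2 θ * p 1 θ + 3 * G 3 θ * p 0 θ = 0 :=
    fun θ => by
    have a1 := (((dG 0 θ).fun_mul (dp 2 θ)).fun_add
      (((dG 1 θ).const_mul 4).fun_mul (dp 1 θ))).fun_add (((dG 2 θ).const_mul 3).fun_mul (dp 0 θ))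
    have a2 : HasDerivAt (fun θ => G 0 θ * p 2 θ + 4 * G 1 θ * p 1 θ + 3 * G 2 θ * p 0 θ) 0 θ :=
      (hasDerivAt_const θ (0 : ℝ)).congr_of_eventuallyEq (Filter.Eventually.of_forall k2)
    have a3 := a1.unique a2
    try simp only [zero_add, Nat.reduceAdd] at a3
    linear_combination a3
  have dW : ∀ θ, HasDerivAt (fun θ => WN (G 0 θ) (G 1 θ) (g 0 θ) (g 1 θ))
      (WN' (G 0 θ) (G 1 θ) (G 2 θ) (g 0 θ) (g 1 θ) (g 2 θ)) θ := fun θ => by
    have a1 := (dg 1 θ).fun_div (dg 0 θ) (hg θ).ne'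
    refine HasDerivAt.congr_deriv ((((dG 0 θ).fun_pow 2).fun_mul a1).fun_sub
      ((dG 0 θ).fun_mul (dG 1 θ))) ?_
    have h1 := (hg θ).ne'
    unfold WN'
    push_cast
    try simp only [zero_add, Nat.reduceAdd]
    field_simp
    ring
  have dW' : ∀ θ, HasDerivAt
      (fun θ => WN' (G 0 θ) (G 1 θ) (G 2 θ) (g 0 θ) (g 1 θ) (g 2 θ))
      (WN'' (G 0 θ) (G 1 θ) (G 2 θ) (G 3 θ) (g 0 θ) (g 1 θ) (g 2 θ) (g 3 θ)) θ := fun θ => by
    have h1 := (hg θ).ne'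
    have a1 := (dg 1 θ).fun_div (dg 0 θ) h1
    have a2 := (dg 2 θ).fun_div (dg 0 θ) h1
    have a3 := ((dg 1 θ).fun_pow 2).fun_div ((dg 0 θ).fun_pow 2) (pow_ne_zero 2 h1)
    refine HasDerivAt.congr_deriv ((((((((dG 0 θ).const_mul 2).fun_mul (dG 1 θ)).fun_mul a1)).fun_add
      (((dG 0 θ).fun_pow 2).fun_mul (a2.fun_sub a3))).fun_sub ((dG 1 θ).fun_pow 2)).fun_sub
      ((dG 0 θ).fun_mul (dG 2 θ))) ?_
    unfold WN''
    push_cast
    try simp only [zero_add, Nat.reduceAdd]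
    field_simp
    ring
  have per : Function.Periodic (fun θ => WN (G 0 θ) (G 1 θ) (g 0 θ) (g 1 θ)) (2 * π) := fun θ => by
    simp only
    rw [perG θ, perG1 θ, pg 0 θ, pg 1 θ]
  have alg := fun θ => alg_body (hp θ).ne' (hg θ).ne' (hG0 θ).ne' (e5 θ) (g2 θ) (g3 θ) (k1 θ)
    (k2 θ) (k3 θ)
  obtain ⟨m, hm, hm1, hm2⟩ := exists_max Real.two_pi_pos per dW dW'
  obtain ⟨m', hm', hm1', hm2'⟩ := exists_max
    (W := fun θ => -(WN (G 0 θ) (G 1 θ) (g 0 θ) (g 1 θ))) Real.two_pi_pos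
    (fun θ => by
      have := per θ
      simp only at this ⊢
      rw [this]) (fun θ => (dW θ).fun_neg) (fun θ => (dW' θ).fun_neg)
  have cub : ∀ w : ℝ, w ^ 3 + Δ * w = w * (w ^ 2 + Δ) := fun w => by ring
  have up : WN (G 0 m) (G 1 m) (g 0 m) (g 1 m) ≤ 0 := by
    have h1 := alg m
    rw [hm1, ellG m, cub] at h1
    by_contra hcon
    push Not at hcon
    have h2 : 0 < WN (G 0 m) (G 1 m) (g 0 m) (g 1 m)
        * (WN (G 0 m) (G 1 m) (g 0 m) (g 1 m) ^ 2 + Δ) := by positivity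
    have h3 : G 0 m ^ 4 * WN'' (G 0 m) (G 1 m) (G 2 m) (G 3 m) (g 0 m) (g 1 m) (g 2 m) (g 3 m) ≤ 0 :=
      mul_nonpos_of_nonneg_of_nonpos (pow_nonneg (hG0 m).le 4) hm2
    linarith
  have lo : 0 ≤ WN (G 0 m') (G 1 m') (g 0 m') (g 1 m') := by
    have h1 := alg m'
    have h0 : WN' (G 0 m') (G 1 m') (G 2 m') (g 0 m') (g 1 m') (g 2 m') = 0 := by linarith
    rw [h0, ellG m', cub] at h1
    by_contra hcon
    push Not at hcon
    have h2 : WN (G 0 m') (G 1 m') (g 0 m') (g 1 m')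
        * (WN (G 0 m') (G 1 m') (g 0 m') (g 1 m') ^ 2 + Δ) < 0 :=
      mul_neg_of_neg_of_pos hcon (by positivity)
    have h3 : 0 ≤ G 0 m' ^ 4
        * WN'' (G 0 m') (G 1 m') (G 2 m') (G 3 m') (g 0 m') (g 1 m') (g 2 m') (g 3 m') :=
      mul_nonneg (pow_nonneg (hG0 m').le 4) (by linarith)
    linarith
  have zero : ∀ θ, WN (G 0 θ) (G 1 θ) (g 0 θ) (g 1 θ) = 0 := fun θ => by
    have h1 := hm θ
    have h2 := hm' θ
    linarith
  have dQ : ∀ θ, HasDerivAt (fun θ => g 0 θ / G 0 θ) 0 θ := fun θ => by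
    refine HasDerivAt.congr_deriv ((dg 0 θ).fun_div (dG 0 θ) (hG0 θ).ne') ?_
    have h1 := zero θ
    have h2 := (hG0 θ).ne'
    have h3 := (hg θ).ne'
    unfold WN at h1
    have h4 : G 0 θ * (g 1 θ * G 0 θ - g 0 θ * G 1 θ) = 0 := by
      field_simp at h1
      linear_combination h1
    have h5 : g 1 θ * G 0 θ - g 0 θ * G 1 θ = 0 := by
      rcases mul_eq_zero.1 h4 with h6 | h6
      · exact absurd h6 h2
      · exact h6
    try simp only [zero_add]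
    rw [h5, zero_div]
  refine ⟨g 0 0 / G 0 0, fun θ => ?_⟩
  have h1 := is_const_of_deriv_eq_zero (fun θ => (dQ θ).differentiableAt) (fun θ => (dQ θ).deriv) θ 0
  rw [← h1, ← G0, hg0, div_mul_cancel₀ _ (hG0 θ).ne']

end Pool.Agent.R462.PL
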