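import Pool.Agent.TH3.PI.Jets

set_option autoImplicit false

open Filter Topology

namespace Pool.Agent.R462.PL

/-- If a function is invariant under a projective involution `x ↦ -x / (1 - c x)` near `0`, then
its derivatives at `0` of order two to five satisfy one relation. -/
theorem parity {F F1 F2 F3 F4 F5 : ℝ → ℝ} {c : ℝ}
    (h0 : ∀ᶠ s in 𝓝 (0 : ℝ), HasDerivAt F (F1 s) s)
    (h1 : ∀ᶠ s in 𝓝 (0 : ℝ), HasDerivAt F1 (F2 s) s)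
    (h2 : ∀ᶠ s in 𝓝 (0 : ℝ), HasDerivAt F2 (F3 s) s)
    (h3 : ∀ᶠ s in 𝓝 (0 : ℝ), HasDerivAt F3 (F4 s) s)
    (h4 : ∀ᶠ s in 𝓝 (0 : ℝ), HasDerivAt F4 (F5 s) s)
    (h : ∀ᶠ x in 𝓝 (0 : ℝ), F x = F (-(x / (1 - c * x)))) (hF1 : F1 0 = 0) :
    9 * F2 0 ^ 2 * F5 0 - 30 * F2 0 * F3 0 * F4 0 + 20 * F3 0 ^ 3 = 0 := by
  obtain ⟨κ, hκ⟩ : ∃ κ : ℝ, c = -2 * κ := ⟨-c / 2, by ring⟩
  subst hκ
  have hone : ∀ᶠ σ in 𝓝 (0 : ℝ), 0 < 1 - κ * σ := by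
    have : ContinuousAt (fun σ : ℝ => 1 - κ * σ) 0 := by fun_prop
    exact this.eventually (eventually_gt_nhds (by simp))
  have hneg : Tendsto (fun s : ℝ => -s) (𝓝 0) (𝓝 0) := by
    simpa using (continuous_neg (G := ℝ)).tendsto 0
  have hone' := hneg.eventually hone
  obtain ⟨w, hwd⟩ : ∃ w : ℝ → ℝ, ∀ σ, w σ = (1 - κ * σ)⁻¹ := ⟨_, fun _ => rfl⟩
  obtain ⟨X, hXd⟩ : ∃ X : ℝ → ℝ, ∀ σ, X σ = σ * w σ := ⟨_, fun _ => rfl⟩
  have hw : ∀ σ : ℝ, 0 < 1 - κ * σ → HasDerivAt w (κ * w σ ^ 2) σ := by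
    intro σ hσ
    have e1 : HasDerivAt (fun σ : ℝ => 1 - κ * σ) (-κ) σ := by
      simpa using ((hasDerivAt_id σ).const_mul κ).const_sub 1
    have e2 : w = fun σ => (1 - κ * σ)⁻¹ := funext hwd
    rw [e2]
    refine HasDerivAt.congr_deriv (e1.fun_inv hσ.ne') ?_
    have := hσ.ne'
    field_simp
  have hx : ∀ σ : ℝ, 0 < 1 - κ * σ → HasDerivAt X (w σ ^ 2) σ := by
    intro σ hσ
    have e2 : X = fun σ => σ * w σ := funext hXd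
    rw [e2]
    refine HasDerivAt.congr_deriv ((hasDerivAt_id σ).fun_mul (hw σ hσ)) ?_
    have h1 : w σ * (1 - κ * σ) = 1 := by rw [hwd]; exact inv_mul_cancel₀ hσ.ne'
    simp only [id, one_mul]
    linear_combination (-w σ) * h1
  have hX0 : X 0 = 0 := by rw [hXd, zero_mul]
  have hw0 : w 0 = 1 := by rw [hwd]; simp
  have hmap : Tendsto X (𝓝 0) (𝓝 0) := by
    have := (hx 0 (by simp)).continuousAt.tendsto
    rwa [hX0] at this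
  have hc : ∀ (A A' : ℝ → ℝ), (∀ᶠ s in 𝓝 (0 : ℝ), HasDerivAt A (A' s) s) →
      ∀ᶠ σ in 𝓝 (0 : ℝ), HasDerivAt (fun σ : ℝ => A (X σ)) (A' (X σ) * w σ ^ 2) σ := by
    intro A A' hA
    filter_upwards [hmap.eventually hA, hone] with σ a1 a2
    exact a1.comp σ (hx σ a2)
  have g0 : ∀ᶠ σ in 𝓝 (0 : ℝ), HasDerivAt (fun σ => F (X σ)) (w σ ^ 2 * F1 (X σ)) σ := by
    filter_upwards [hc _ _ h0] with σ a
    refine HasDerivAt.congr_deriv (a) ?_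
    ring
  have g1 : ∀ᶠ σ in 𝓝 (0 : ℝ), HasDerivAt (fun σ => w σ ^ 2 * F1 (X σ))
      (w σ ^ 4 * F2 (X σ) + 2 * κ * w σ ^ 3 * F1 (X σ)) σ := by
    filter_upwards [hc _ _ h1, hone] with σ a b
    refine HasDerivAt.congr_deriv (((hw σ b).fun_pow 2).fun_mul a) ?_
    push_cast
    ring
  have g2 : ∀ᶠ σ in 𝓝 (0 : ℝ), HasDerivAt
      (fun σ => w σ ^ 4 * F2 (X σ) + 2 * κ * w σ ^ 3 * F1 (X σ))
      (w σ ^ 6 * F3 (X σ) + 6 * κ * w σ ^ 5 * F2 (X σ) + 6 * κ ^ 2 * w σ ^ 4 * F1 (X σ)) σ := by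
    filter_upwards [hc _ _ h1, hc _ _ h2, hone] with σ a1 a2 b
    refine HasDerivAt.congr_deriv ((((hw σ b).fun_pow 4).fun_mul a2).fun_add (((((hw σ b).fun_pow 3).const_mul (2 * κ)).fun_mul a1))) ?_
    push_cast
    ring
  have g3 : ∀ᶠ σ in 𝓝 (0 : ℝ), HasDerivAt
      (fun σ => w σ ^ 6 * F3 (X σ) + 6 * κ * w σ ^ 5 * F2 (X σ) + 6 * κ ^ 2 * w σ ^ 4 * F1 (X σ))
      (w σ ^ 8 * F4 (X σ) + 12 * κ * w σ ^ 7 * F3 (X σ) + 36 * κ ^ 2 * w σ ^ 6 * F2 (X σ)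
        + 24 * κ ^ 3 * w σ ^ 5 * F1 (X σ)) σ := by
    filter_upwards [hc _ _ h1, hc _ _ h2, hc _ _ h3, hone] with σ a1 a2 a3 b
    refine HasDerivAt.congr_deriv (((((hw σ b).fun_pow 6).fun_mul a3).fun_add (((((hw σ b).fun_pow 5).const_mul (6 * κ)).fun_mul a2))).add
      (((((hw σ b).fun_pow 4).const_mul (6 * κ ^ 2)).fun_mul a1))) ?_
    push_cast
    ring
  have g4 : ∀ᶠ σ in 𝓝 (0 : ℝ), HasDerivAt
      (fun σ => w σ ^ 8 * F4 (X σ) + 12 * κ * w σ ^ 7 * F3 (X σ) + 36 * κ ^ 2 * w σ ^ 6 * F2 (X σ)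
        + 24 * κ ^ 3 * w σ ^ 5 * F1 (X σ))
      (w σ ^ 10 * F5 (X σ) + 20 * κ * w σ ^ 9 * F4 (X σ) + 120 * κ ^ 2 * w σ ^ 8 * F3 (X σ)
        + 240 * κ ^ 3 * w σ ^ 7 * F2 (X σ) + 120 * κ ^ 4 * w σ ^ 6 * F1 (X σ)) σ := by
    filter_upwards [hc _ _ h1, hc _ _ h2, hc _ _ h3, hc _ _ h4, hone] with σ a1 a2 a3 a4 b
    refine HasDerivAt.congr_deriv ((((((hw σ b).fun_pow 8).fun_mul a4).fun_add (((((hw σ b).fun_pow 7).const_mul (12 * κ)).fun_mul a3))).add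
      (((((hw σ b).fun_pow 6).const_mul (36 * κ ^ 2)).fun_mul a2))).add
      (((((hw σ b).fun_pow 5).const_mul (24 * κ ^ 3)).fun_mul a1))) ?_
    push_cast
    ring
  have hev : ∀ᶠ σ in 𝓝 (0 : ℝ), (1 + 0 * σ) * F (X σ) = (1 - 0 * σ) * F (X (-σ)) := by
    filter_upwards [hmap.eventually h, hone, hone'] with σ a1 a2 a3
    have e1 : X (-σ) = -(X σ / (1 - -2 * κ * X σ)) := by
      rw [hXd, hXd, hwd, hwd]
      have h1 := a2.ne'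
      have h2 : 1 - κ * -σ ≠ 0 := a3.ne'
      have h3 : 1 - -2 * κ * (σ * (1 - κ * σ)⁻¹) = (1 - κ * -σ) / (1 - κ * σ) := by
        field_simp
        ring
      have h4 : 1 + κ * σ ≠ 0 := by
        intro h5
        apply h2
        linarith
      have h6 : 1 - κ * -σ = 1 + κ * σ := by ring
      rw [h3, h6, div_div_eq_mul_div, mul_assoc, inv_mul_cancel₀ h1, mul_one, div_eq_mul_inv,
        neg_mul]
    rw [e1, ← a1]
    ring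
  obtain ⟨t3, t5⟩ := Pool.Agent.TH3.PI.odd_jets g0 g1 g2 g3 g4 hev
  simp only [hw0, hX0, hF1] at t3 t5
  have e3 : F3 0 = -6 * κ * F2 0 := by linarith
  have e5 : F5 0 = -20 * κ * F4 0 - 120 * κ ^ 2 * F3 0 - 240 * κ ^ 3 * F2 0 := by linarith
  rw [e5, e3]
  ring

end Pool.Agent.R462.PL
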